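import Mathlib

set_option autoImplicit false

open MeasureTheory Set
open scoped ENNReal Real

namespace Pool.Agent.H45.Disk

/-- Mass of a planar set in the angular sector between the angles s and t. -/
noncomputable def arc (U : Set (ℝ × ℝ)) (s t : ℝ) : ℝ≥0∞ :=
  ∫⁻ φ in Ioc s t, ∫⁻ ρ in Ioi (0:ℝ),
    ENNReal.ofReal ρ * U.indicator 1 (ρ * Real.cos φ, ρ * Real.sin φ)

theorem arc_full {U : Set (ℝ × ℝ)} (hU : MeasurableSet U) :
    arc U (-π) π = volume U := by
  have h1 : volume U = ∫⁻ p : ℝ × ℝ, U.indicator (1 : ℝ × ℝ → ℝ≥0∞) p := by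
    rw [lintegral_indicator_one hU]
  rw [h1, ← lintegral_comp_polarCoord_symm]
  have h2 : polarCoord.target = Ioi (0:ℝ) ×ˢ Ioo (-π) π := rfl
  rw [h2]
  have h3 : (volume : Measure (ℝ × ℝ)).restrict (Ioi (0:ℝ) ×ˢ Ioo (-π) π)
      = (volume.restrict (Ioi (0:ℝ))).prod (volume.restrict (Ioo (-π) π)) := by
    rw [Measure.prod_restrict]; rfl
  rw [h3, lintegral_prod_symm]
  · unfold arc
    rw [← restrict_Ioo_eq_restrict_Ioc]
    rfl
  · apply Measurable.aemeasurable
    have ha : Measurable (fun p : ℝ × ℝ => ENNReal.ofReal p.1) :=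
      ENNReal.measurable_ofReal.comp measurable_fst
    have hb : Measurable (fun p : ℝ × ℝ => U.indicator (1 : ℝ × ℝ → ℝ≥0∞) (polarCoord.symm p)) :=
      (measurable_one.indicator hU).comp continuous_polarCoord_symm.measurable
    exact ha.mul hb

theorem arc_add (U : Set (ℝ × ℝ)) {s t w : ℝ} (h1 : s ≤ t) (h2 : t ≤ w) :
    arc U s w = arc U s t + arc U t w := by
  unfold arc
  rw [← Ioc_union_Ioc_eq_Ioc h1 h2, lintegral_union measurableSet_Ioc]
  rw [Set.disjoint_left]
  intro x hx hx'
  exact absurd hx.2 (not_le.mpr hx'.1)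

theorem lintegral_ofReal_id {R : ℝ} (hR : 0 ≤ R) :
    ∫⁻ ρ in Ioc (0:ℝ) R, ENNReal.ofReal ρ = ENNReal.ofReal (R ^ 2 / 2) := by
  have h1 : ∫ ρ in Ioc (0:ℝ) R, ρ = R ^ 2 / 2 := by
    rw [← intervalIntegral.integral_of_le hR, integral_id]; ring
  rw [← h1, ofReal_integral_eq_lintegral_ofReal]
  · exact (continuous_id.integrableOn_Icc).mono_set Ioc_subset_Icc_self
  · filter_upwards [ae_restrict_mem measurableSet_Ioc] with ρ hρ
    exact hρ.1.le

theorem integral_trig (c x y s t : ℝ) :
    ∫ φ in s..t, (c + (x * Real.cos φ + y * Real.sin φ))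
      = c * (t - s) + (x * (Real.sin t - Real.sin s) + y * (Real.cos s - Real.cos t)) := by
  have hc : Continuous (fun φ : ℝ => x * Real.cos φ) := by fun_prop
  have hs : Continuous (fun φ : ℝ => y * Real.sin φ) := by fun_prop
  have hcs : Continuous (fun φ : ℝ => x * Real.cos φ + y * Real.sin φ) := by fun_prop
  rw [intervalIntegral.integral_add (intervalIntegrable_const)
    (hcs.intervalIntegrable _ _), intervalIntegral.integral_add (hc.intervalIntegrable _ _)
    (hs.intervalIntegrable _ _)]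
  simp only [intervalIntegral.integral_const, intervalIntegral.integral_const_mul,
    integral_cos, integral_sin, smul_eq_mul]
  ring

theorem lintegral_trig {c x y s t : ℝ} (hst : s ≤ t)
    (hpos : ∀ φ ∈ Ioc s t, 0 ≤ c + (x * Real.cos φ + y * Real.sin φ)) :
    ∫⁻ φ in Ioc s t, ENNReal.ofReal (c + (x * Real.cos φ + y * Real.sin φ))
      = ENNReal.ofReal (c * (t - s) +
        (x * (Real.sin t - Real.sin s) + y * (Real.cos s - Real.cos t))) := by
  rw [← integral_trig, intervalIntegral.integral_of_le hst, ofReal_integral_eq_lintegral_ofReal]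
  · have hc : Continuous (fun φ : ℝ => c + (x * Real.cos φ + y * Real.sin φ)) := by fun_prop
    exact (hc.integrableOn_Icc).mono_set Ioc_subset_Icc_self
  · filter_upwards [ae_restrict_mem measurableSet_Ioc] with φ hφ
    exact hpos φ hφ

theorem abs_trig_le {x y D : ℝ} (hD0 : 0 ≤ D) (hD : x ^ 2 + y ^ 2 ≤ D ^ 2) (φ : ℝ) :
    |x * Real.cos φ + y * Real.sin φ| ≤ D := by
  apply abs_le_of_sq_le_sq _ hD0
  have h1 : (x * Real.cos φ + y * Real.sin φ) ^ 2 + (x * Real.sin φ - y * Real.cos φ) ^ 2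
      = x ^ 2 + y ^ 2 := by
    have := Real.sin_sq_add_cos_sq φ
    linear_combination (x ^ 2 + y ^ 2) * this
  nlinarith [sq_nonneg (x * Real.sin φ - y * Real.cos φ)]

theorem arc_lower {U : Set (ℝ × ℝ)} {x y r κ D s t : ℝ} (hst : s ≤ t)
    (hD0 : 0 ≤ D) (hD : x ^ 2 + y ^ 2 ≤ D ^ 2) (hDκ : 2 * D ≤ κ) (hr : κ ^ 2 + D ^ 2 ≤ r ^ 2)
    (hU : ∀ p : ℝ × ℝ, (p.1 - x) ^ 2 + (p.2 - y) ^ 2 ≤ r ^ 2 → p ∈ U) :
    ENNReal.ofReal (κ ^ 2 / 2 * (t - s) +
      κ * (x * (Real.sin t - Real.sin s) + y * (Real.cos s - Real.cos t))) ≤ arc U s t := by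
  have hκ : 0 ≤ κ := by linarith
  have e1 : κ * (x * (Real.sin t - Real.sin s) + y * (Real.cos s - Real.cos t))
      = ((κ * x) * (Real.sin t - Real.sin s) + (κ * y) * (Real.cos s - Real.cos t)) := by ring
  have hb := abs_trig_le hD0 hD
  rw [e1, ← lintegral_trig hst]
  · unfold arc
    apply setLIntegral_mono' measurableSet_Ioc
    intro φ _
    set w := x * Real.cos φ + y * Real.sin φ with hw
    have hwD := abs_le.mp (hb φ)
    have hR : 0 ≤ w + κ := by linarith [hwD.1]
    calc ENNReal.ofReal (κ ^ 2 / 2 + (κ * x * Real.cos φ + κ * y * Real.sin φ))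
        ≤ ENNReal.ofReal ((w + κ) ^ 2 / 2) := by
          apply ENNReal.ofReal_le_ofReal
          have : κ * x * Real.cos φ + κ * y * Real.sin φ = κ * w := by rw [hw]; ring
          rw [this]; nlinarith [sq_nonneg w]
      _ = ∫⁻ ρ in Ioc (0:ℝ) (w + κ), ENNReal.ofReal ρ := (lintegral_ofReal_id hR).symm
      _ ≤ ∫⁻ ρ in Ioc (0:ℝ) (w + κ),
            ENNReal.ofReal ρ * U.indicator 1 (ρ * Real.cos φ, ρ * Real.sin φ) := by
          apply setLIntegral_mono' measurableSet_Ioc
          intro ρ hρ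
          have hmem : (ρ * Real.cos φ, ρ * Real.sin φ) ∈ U := by
            apply hU
            simp only
            have h1 : (ρ * Real.cos φ - x) ^ 2 + (ρ * Real.sin φ - y) ^ 2
                = (ρ - w) ^ 2 + (x ^ 2 + y ^ 2) - w ^ 2 := by
              have := Real.sin_sq_add_cos_sq φ
              rw [hw]
              linear_combination (ρ ^ 2) * this
            rw [h1]
            have h2 : (ρ - w) ^ 2 ≤ max (κ ^ 2) (w ^ 2) := by
              rcases le_total 0 (ρ - w) with h | h
              · apply le_max_of_le_left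
                have : ρ - w ≤ κ := by linarith [hρ.2]
                nlinarith
              · apply le_max_of_le_right
                have h3 : w - ρ ≤ w := by linarith [hρ.1]
                nlinarith
            rcases max_choice (κ ^ 2) (w ^ 2) with h | h
            · rw [h] at h2; nlinarith [sq_nonneg w]
            · rw [h] at h2; nlinarith [sq_nonneg κ]
          rw [Set.indicator_of_mem hmem]
          simp
      _ ≤ _ := by
          apply lintegral_mono_set
          exact Ioc_subset_Ioi_self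
  · intro φ _
    have hwD := abs_le.mp (hb φ)
    have : κ * x * Real.cos φ + κ * y * Real.sin φ
      = κ * (x * Real.cos φ + y * Real.sin φ) := by ring
    rw [this]
    nlinarith

theorem arc_upper {U : Set (ℝ × ℝ)} {x y r D s t : ℝ} (hst : s ≤ t)
    (hD0 : 0 ≤ D) (hD : x ^ 2 + y ^ 2 ≤ D ^ 2) (hDr : D ≤ r)
    (hU : ∀ φ ∈ Ioc s t, ∀ ρ : ℝ, 0 < ρ → (ρ * Real.cos φ, ρ * Real.sin φ) ∈ U →
      ρ ≤ r + (x * Real.cos φ + y * Real.sin φ)) :
    arc U s t ≤ ENNReal.ofReal ((r ^ 2 + D ^ 2) / 2 * (t - s) +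
      r * (x * (Real.sin t - Real.sin s) + y * (Real.cos s - Real.cos t))) := by
  have hr0 : 0 ≤ r := hD0.trans hDr
  have e1 : r * (x * (Real.sin t - Real.sin s) + y * (Real.cos s - Real.cos t))
      = ((r * x) * (Real.sin t - Real.sin s) + (r * y) * (Real.cos s - Real.cos t)) := by ring
  have hb := abs_trig_le hD0 hD
  rw [e1, ← lintegral_trig hst]
  · unfold arc
    apply setLIntegral_mono' measurableSet_Ioc
    intro φ hφ
    set w := x * Real.cos φ + y * Real.sin φ with hw
    have hwD := abs_le.mp (hb φ)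
    have hR : 0 ≤ r + w := by linarith [hwD.1]
    calc ∫⁻ ρ in Ioi (0:ℝ),
            ENNReal.ofReal ρ * U.indicator 1 (ρ * Real.cos φ, ρ * Real.sin φ)
        ≤ ∫⁻ ρ in Ioi (0:ℝ), (Iic (r + w)).indicator (fun ρ => ENNReal.ofReal ρ) ρ := by
          apply setLIntegral_mono' measurableSet_Ioi
          intro ρ hρ
          by_cases hm : (ρ * Real.cos φ, ρ * Real.sin φ) ∈ U
          · have hle := hU φ hφ ρ hρ hm
            rw [Set.indicator_of_mem hm, Set.indicator_of_mem (show ρ ∈ Iic (r + w) from hle)]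
            simp
          · rw [Set.indicator_of_notMem hm]
            simp
      _ = ∫⁻ ρ in Ioc (0:ℝ) (r + w), ENNReal.ofReal ρ := by
          rw [lintegral_indicator measurableSet_Iic, Measure.restrict_restrict measurableSet_Iic,
            Set.inter_comm, Set.Ioi_inter_Iic]
      _ = ENNReal.ofReal ((r + w) ^ 2 / 2) := lintegral_ofReal_id hR
      _ ≤ ENNReal.ofReal ((r ^ 2 + D ^ 2) / 2 + (r * x * Real.cos φ + r * y * Real.sin φ)) := by
          apply ENNReal.ofReal_le_ofReal
          have : r * x * Real.cos φ + r * y * Real.sin φ = r * w := by rw [hw]; ring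
          rw [this]
          have : w ^ 2 ≤ D ^ 2 := sq_le_sq' hwD.1 hwD.2
          nlinarith
  · intro φ _
    have hwD := abs_le.mp (hb φ)
    have : r * x * Real.cos φ + r * y * Real.sin φ
      = r * (x * Real.cos φ + y * Real.sin φ) := by ring
    rw [this]
    have h3 : -(r * D) ≤ r * (x * Real.cos φ + y * Real.sin φ) := by nlinarith
    nlinarith [sq_nonneg (r - D)]

end Pool.Agent.H45.Disk
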