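import Mathlib

set_option autoImplicit false

namespace Pool.Agent.H45.Disk

theorem exists_extreme (s : Finset (ℤ × ℤ)) (hs : s.Nonempty) (f g : ℤ × ℤ → ℤ) :
    ∃ p ∈ s, (∀ q ∈ s, f q ≤ f p) ∧ (∀ q ∈ s, f q = f p → g q ≤ g p) := by
  obtain ⟨p0, hp0, hmax⟩ := s.exists_max_image f hs
  have hne : (s.filter (fun q => f q = f p0)).Nonempty := ⟨p0, by simp [hp0]⟩
  obtain ⟨p, hp, hmax'⟩ := (s.filter (fun q => f q = f p0)).exists_max_image g hne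
  rw [Finset.mem_filter] at hp
  refine ⟨p, hp.1, ?_, ?_⟩
  · intro q hq; rw [hp.2]; exact hmax q hq
  · intro q hq hfq
    exact hmax' q (by rw [Finset.mem_filter]; exact ⟨hq, hfq.trans hp.2⟩)

theorem side_card (s : Finset (ℤ × ℤ)) (g : ℤ × ℤ → ℤ) (P : ℤ × ℤ → Prop) [DecidablePred P]
    (lo hi : ℤ) (hinj : ∀ p q, P p → P q → g p = g q → p = q)
    (h : ∀ q ∈ s, P q → lo ≤ g q ∧ g q ≤ hi) (hlo : lo ≤ hi + 1) :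
    ((s.filter P).card : ℤ) ≤ hi - lo + 1 := by
  have h1 : (s.filter P).card ≤ (Finset.Icc lo hi).card := by
    apply Finset.card_le_card_of_injOn g
    · intro q hq
      rw [Finset.mem_coe, Finset.mem_filter] at hq
      rw [Finset.mem_coe, Finset.mem_Icc]
      exact h q hq.1 hq.2
    · intro p hp q hq hpq
      rw [Finset.mem_coe, Finset.mem_filter] at hp hq
      exact hinj p q hp.2 hq.2 hpq
  rw [Int.card_Icc] at h1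
  have : ((hi + 1 - lo).toNat : ℤ) = hi + 1 - lo := Int.toNat_of_nonneg (by omega)
  omega

theorem tri_sum_nat (m : ℕ) : ∀ n : ℕ, m ≤ n →
    2 * ∑ x ∈ Finset.range n, max 0 ((m : ℤ) - x) = m * (m + 1) := by
  intro n hn
  induction n, hn using Nat.le_induction with
  | base =>
    induction m with
    | zero => simp
    | succ k ih =>
      rw [Finset.sum_range_succ]
      have h1 : ∑ x ∈ Finset.range k, max 0 (((k + 1 : ℕ) : ℤ) - x)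
          = ∑ x ∈ Finset.range k, (max 0 ((k : ℤ) - x) + 1) := by
        apply Finset.sum_congr rfl
        intro x hx
        rw [Finset.mem_range] at hx
        push_cast
        rw [max_eq_right (by omega), max_eq_right (by omega)]; ring
      rw [h1, Finset.sum_add_distrib]
      simp only [Finset.sum_const, Finset.card_range, nsmul_eq_mul, mul_one]
      rw [max_eq_right (by push_cast; omega)]
      push_cast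
      linarith
  | succ n hmn ih =>
    rw [Finset.sum_range_succ, max_eq_left (by omega)]
    linarith

theorem tri_sum (l : ℤ) (n : ℕ) (h1 : -1 ≤ l) (h2 : l ≤ n) :
    2 * ∑ x ∈ Finset.range n, max 0 (l - x) = l * (l + 1) := by
  rcases eq_or_lt_of_le h1 with h | h
  · rw [← h]
    have : ∑ x ∈ Finset.range n, max 0 ((-1 : ℤ) - x) = 0 := by
      apply Finset.sum_eq_zero
      intro x _
      rw [max_eq_left (by omega)]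
    rw [this]; norm_num
  · obtain ⟨m, rfl⟩ := Int.eq_ofNat_of_zero_le (show 0 ≤ l by omega)
    exact tri_sum_nat m n (by omega)

theorem hex_count (t : Finset (ℤ × ℤ)) (a0 a1 b0 b1 s0 s1 : ℤ)
    (hA : -1 ≤ a1 - a0) (hB : -1 ≤ b1 - b0) (hC : -1 ≤ s1 - s0)
    (l1 : -1 ≤ s1 - a1 - b0) (l2 : -1 ≤ a1 + b1 - s1) (l3 : -1 ≤ s1 - b1 - a0)
    (l4 : -1 ≤ a0 + b1 - s0) (l5 : -1 ≤ s0 - a0 - b0) (l6 : -1 ≤ a1 + b0 - s0)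
    (ht : ∀ p ∈ t, a0 ≤ p.1 ∧ p.1 ≤ a1 ∧ b0 ≤ p.2 ∧ p.2 ≤ b1 ∧ s0 ≤ p.1 + p.2 ∧ p.1 + p.2 ≤ s1) :
    2 * (t.card : ℤ) ≤ 2 * (a1 - a0 + 1) * (b1 - b0 + 1)
      - (a1 + b1 - s1) * (a1 + b1 - s1 + 1) - (s0 - a0 - b0) * (s0 - a0 - b0 + 1) := by
  obtain ⟨n, hn⟩ := Int.eq_ofNat_of_zero_le (show 0 ≤ a1 - a0 + 1 by omega)
  have hsub : t ⊆ (Finset.range n).biUnion (fun x => t.filter (fun p => p.1 = a0 + x)) := by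
    intro p hp
    obtain ⟨h1, h2, -⟩ := ht p hp
    rw [Finset.mem_biUnion]
    refine ⟨(p.1 - a0).toNat, ?_, ?_⟩
    · rw [Finset.mem_range]; omega
    · rw [Finset.mem_filter]; refine ⟨hp, ?_⟩; omega
  have hcard : (t.card : ℤ) ≤ ∑ x ∈ Finset.range n,
      ((t.filter (fun p => p.1 = a0 + x)).card : ℤ) := by
    have := (Finset.card_le_card hsub).trans Finset.card_biUnion_le
    exact_mod_cast this
  have hcol : ∀ x ∈ Finset.range n, ((t.filter (fun p => p.1 = a0 + x)).card : ℤ)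
      ≤ (1 + (b1 - b0)) - max 0 ((s0 - a0 - b0) - x) - max 0 ((x : ℤ) - (s1 - b1 - a0)) := by
    intro x hx
    rw [Finset.mem_range] at hx
    have := side_card t (fun p => p.2) (fun p => p.1 = a0 + x)
      (b0 + max 0 ((s0 - a0 - b0) - x)) (b1 - max 0 ((x : ℤ) - (s1 - b1 - a0)))
      (fun p q hp hq hpq => Prod.ext (hp.trans hq.symm) hpq)
      (by
        intro q hq hq1
        obtain ⟨h1, h2, h3, h4, h5, h6⟩ := ht q hq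
        rcases max_cases 0 ((s0 - a0 - b0) - (x:ℤ)) with h | h <;>
        rcases max_cases 0 ((x : ℤ) - (s1 - b1 - a0)) with h' | h' <;>
        rw [h.1, h'.1] <;> constructor <;> omega)
      (by
        rcases max_cases 0 ((s0 - a0 - b0) - (x:ℤ)) with h | h <;>
        rcases max_cases 0 ((x : ℤ) - (s1 - b1 - a0)) with h' | h' <;>
        rw [h.1, h'.1] <;> omega)
    linarith
  have hsum := Finset.sum_le_sum hcol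
  rw [Finset.sum_sub_distrib, Finset.sum_sub_distrib] at hsum
  simp only [Finset.sum_const, Finset.card_range, nsmul_eq_mul] at hsum
  have e5 := tri_sum (s0 - a0 - b0) n l5 (by omega)
  have e2' := tri_sum (a1 + b1 - s1) n l2 (by omega)
  have e2 : ∑ x ∈ Finset.range n, max 0 ((a1 + b1 - s1) - (x:ℤ))
      = ∑ x ∈ Finset.range n, max 0 ((x : ℤ) - (s1 - b1 - a0)) := by
    rw [← Finset.sum_range_reflect]
    apply Finset.sum_congr rfl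
    intro x hx
    rw [Finset.mem_range] at hx
    congr 1
    have : ((n - 1 - x : ℕ) : ℤ) = n - 1 - x := by omega
    rw [this]; omega
  rw [e2] at e2'
  have h3 : (a1 - a0 + 1) = n := hn
  rw [h3]
  nlinarith [hsum, hcard, e5, e2']

theorem hex_count' (t : Finset (ℤ × ℤ)) (a0 a1 b0 b1 s0 s1 : ℤ)
    (hA : -1 ≤ a1 - a0) (hB : -1 ≤ b1 - b0) (hC : -1 ≤ s1 - s0)
    (l1 : -1 ≤ s1 - a1 - b0) (l2 : -1 ≤ a1 + b1 - s1) (l3 : -1 ≤ s1 - b1 - a0)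
    (l4 : -1 ≤ a0 + b1 - s0) (l5 : -1 ≤ s0 - a0 - b0) (l6 : -1 ≤ a1 + b0 - s0)
    (ht : ∀ p ∈ t, a0 ≤ p.1 ∧ p.1 ≤ a1 ∧ b0 ≤ p.2 ∧ p.2 ≤ b1 ∧ s0 ≤ p.1 + p.2 ∧ p.1 + p.2 ≤ s1)
    (A B C : ℤ) (eA : A = a1 - a0) (eB : B = b1 - b0) (eC : C = s1 - s0) :
    12 * (t.card : ℤ) ≤ (A + B + C) ^ 2 + 6 * (A + B + C) + 12
      - (2 * C - A - B) ^ 2 - 3 * (A - B) ^ 2
      - 3 * ((a1 + b1 - s1) - (s0 - a0 - b0)) ^ 2 := by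
  have h := hex_count t a0 a1 b0 b1 s0 s1 hA hB hC l1 l2 l3 l4 l5 l6 ht
  subst eA eB eC
  nlinarith [h]

theorem arith1 (M0 M1 M2 M3 M4 M5 : ℤ) (h0 : M0 ≤ M5 + M1) (h1 : M1 ≤ M0 + M2) (h2 : M2 ≤ M1 + M3)
    (h3 : M3 ≤ M2 + M4) (h4 : M4 ≤ M3 + M5) (h5 : M5 ≤ M4 + M0)
    (w0 : 0 ≤ M0 + M3) (w1 : 0 ≤ M1 + M4) (w2 : 0 ≤ M2 + M5)
    (hL : M0 + M1 + M2 + M3 + M4 + M5 ≤ 25)
    (hS : 12 * 54 ≤ (M0 + M1 + M2 + M3 + M4 + M5) ^ 2 + 6 * (M0 + M1 + M2 + M3 + M4 + M5) + 12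
      - (2 * (M4 + M1) - (M3 + M0) - (M5 + M2)) ^ 2 - 3 * ((M3 + M0) - (M5 + M2)) ^ 2) :
    23 ≤ M0 + M1 + M2 + M3 + M4 + M5 ∧ 1 ≤ M3 + M0 ∧ 1 ≤ M5 + M2 ∧ 1 ≤ M4 + M1 := by
  obtain ⟨L, hLd⟩ : ∃ L : ℤ, L = M0 + M1 + M2 + M3 + M4 + M5 := ⟨_, rfl⟩
  obtain ⟨A, hA⟩ : ∃ A : ℤ, A = M3 + M0 := ⟨_, rfl⟩
  obtain ⟨B, hB⟩ : ∃ B : ℤ, B = M5 + M2 := ⟨_, rfl⟩
  obtain ⟨C, hC⟩ : ∃ C : ℤ, C = M4 + M1 := ⟨_, rfl⟩
  rw [← hLd, ← hA, ← hB, ← hC] at hS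
  have hL' : L ≤ 25 := by omega
  have hLABC : L = A + B + C := by omega
  have h23 : 23 ≤ L := by
    by_contra h
    have h' : L ≤ 22 := by omega
    have hL0 : 0 ≤ L := by omega
    nlinarith [sq_nonneg (2 * C - A - B), sq_nonneg (A - B)]
  refine ⟨by omega, ?_, ?_, ?_⟩
  · by_contra h
    have e0 : A = 0 := by omega
    have e1 : B = C := by omega
    subst e0 e1
    rw [hLABC] at hS hL'
    nlinarith
  · by_contra h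
    have e0 : B = 0 := by omega
    have e1 : A = C := by omega
    subst e0 e1
    rw [hLABC] at hS hL'
    nlinarith
  · by_contra h
    have e0 : C = 0 := by omega
    have e1 : A = B := by omega
    subst e0 e1
    rw [hLABC] at hS hL'
    nlinarith

theorem arith2 (M0 M1 M2 M3 M4 M5 x0 x1 x2 x3 x4 x5 y0 y1 y2 y3 y4 y5 k0 k1 k2 k3 k4 k5 c0 c1 c2 c3 c4 c5 n : ℤ)
    (hk0 : 0 ≤ k0)
    (hx0 : x0 ≤ M1 - 1 + k0)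
    (hy0 : y0 ≤ M0 - 1 + k0)
    (hd0 : M0 ≤ x0 + y5)
    (hc0 : c0 ≤ x0 - k0 - (M0 - y5) + 1)
    (hk1 : 0 ≤ k1)
    (hx1 : x1 ≤ M2 - 1 + k1)
    (hy1 : y1 ≤ M1 - 1 + k1)
    (hd1 : M1 ≤ x1 + y0)
    (hc1 : c1 ≤ x1 - k1 - (M1 - y0) + 1)
    (hk2 : 0 ≤ k2)
    (hx2 : x2 ≤ M3 - 1 + k2)
    (hy2 : y2 ≤ M2 - 1 + k2)
    (hd2 : M2 ≤ x2 + y1)
    (hc2 : c2 ≤ x2 - k2 - (M2 - y1) + 1)
    (hk3 : 0 ≤ k3)
    (hx3 : x3 ≤ M4 - 1 + k3)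
    (hy3 : y3 ≤ M3 - 1 + k3)
    (hd3 : M3 ≤ x3 + y2)
    (hc3 : c3 ≤ x3 - k3 - (M3 - y2) + 1)
    (hk4 : 0 ≤ k4)
    (hx4 : x4 ≤ M5 - 1 + k4)
    (hy4 : y4 ≤ M4 - 1 + k4)
    (hd4 : M4 ≤ x4 + y3)
    (hc4 : c4 ≤ x4 - k4 - (M4 - y3) + 1)
    (hk5 : 0 ≤ k5)
    (hx5 : x5 ≤ M0 - 1 + k5)
    (hy5 : y5 ≤ M5 - 1 + k5)
    (hd5 : M5 ≤ x5 + y4)
    (hc5 : c5 ≤ x5 - k5 - (M5 - y4) + 1)
    (hL23 : 23 ≤ M0 + M1 + M2 + M3 + M4 + M5) (hL25 : M0 + M1 + M2 + M3 + M4 + M5 ≤ 25)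
    (hcard : 54 ≤ n + c0 + c1 + c2 + c3 + c4 + c5)
    (hn : 12 * n ≤ (M0 + M1 + M2 + M3 + M4 + M5 - 6) ^ 2 + 6 * (M0 + M1 + M2 + M3 + M4 + M5 - 6) + 12
      - (2 * (M4 + M1) - (M3 + M0) - (M5 + M2)) ^ 2 - 3 * ((M3 + M0) - (M5 + M2)) ^ 2
      - 3 * ((M3 + M5 - M4) - (M0 + M2 - M1)) ^ 2) :
    (M0 + M1 + M2 + M3 + M4 + M5 = 25 ∧ 33 ≤ x0 + y0 + x1 + y1 + x2 + y2 + x3 + y3 + x4 + y4 + x5 + y5) ∨
    (M0 + M1 + M2 + M3 + M4 + M5 = 24 ∧ 36 ≤ x0 + y0 + x1 + y1 + x2 + y2 + x3 + y3 + x4 + y4 + x5 + y5) ∨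
    (M0 + M1 + M2 + M3 + M4 + M5 = 23 ∧ 42 ≤ x0 + y0 + x1 + y1 + x2 + y2 + x3 + y3 + x4 + y4 + x5 + y5) ∨
    (M0 + M1 + M2 + M3 + M4 + M5 = 24 ∧ x0 + y0 + x1 + y1 + x2 + y2 + x3 + y3 + x4 + y4 + x5 + y5 = 35 ∧ x0 ≤ M1 - 1 ∧ y0 ≤ M0 - 1 ∧ x1 ≤ M2 - 1 ∧ y1 ≤ M1 - 1 ∧ x2 ≤ M3 - 1 ∧ y2 ≤ M2 - 1 ∧ x3 ≤ M4 - 1 ∧ y3 ≤ M3 - 1 ∧ x4 ≤ M5 - 1 ∧ y4 ≤ M4 - 1 ∧ x5 ≤ M0 - 1 ∧ y5 ≤ M5 - 1) := by
  obtain ⟨L, hLd⟩ : ∃ L : ℤ, L = M0 + M1 + M2 + M3 + M4 + M5 := ⟨_, rfl⟩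
  rw [← hLd] at hn hL23 hL25
  obtain ⟨p, hp⟩ : ∃ p : ℤ, p = 2 * (M4 + M1) - (M3 + M0) - (M5 + M2) := ⟨_, rfl⟩
  obtain ⟨q, hq⟩ : ∃ q : ℤ, q = (M3 + M0) - (M5 + M2) := ⟨_, rfl⟩
  obtain ⟨w, hw⟩ : ∃ w : ℤ, w = (M3 + M5 - M4) - (M0 + M2 - M1) := ⟨_, rfl⟩
  rw [← hp, ← hq, ← hw] at hn
  have hp2 := sq_nonneg p
  have hq2 := sq_nonneg q
  have hw2 := sq_nonneg w
  obtain ⟨T, hTd⟩ : ∃ T : ℤ, T = x0 + y0 + x1 + y1 + x2 + y2 + x3 + y3 + x4 + y4 + x5 + y5 := ⟨_, rfl⟩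
  obtain ⟨K, hKd⟩ : ∃ K : ℤ, K = k0 + k1 + k2 + k3 + k4 + k5 := ⟨_, rfl⟩
  have hTK : 54 + L ≤ n + T - K + 6 := by linarith
  have hTK2 : T ≤ 2 * L - 12 + 2 * K := by linarith
  have hK0 : 0 ≤ K := by linarith
  rw [← hLd, ← hTd]
  have hcases : L = 23 ∨ L = 24 ∨ L = 25 := by clear hn hc0 hc1 hc2 hc3 hc4 hc5 hcard; omega
  rcases hcases with h | h | h
  · rw [h] at hn
    have hn' : n ≤ 33 := by
      have : 12 * n ≤ 12 * 33 + 8 := by linarith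
      omega
    right; right; left
    exact ⟨h, by linarith⟩
  · rw [h] at hn
    have hn' : n ≤ 37 := by linarith
    right
    by_cases hT : 36 ≤ T
    · left; exact ⟨h, hT⟩
    · right; right
      have hT' : T ≤ 35 := by linarith [Int.lt_iff_add_one_le.mp (not_le.mp hT)]
      have hK1 : K = 0 := le_antisymm (by linarith) hK0
      refine ⟨h, le_antisymm hT' (by linarith), ?_⟩
      refine ⟨?_, ?_, ?_, ?_, ?_, ?_, ?_, ?_, ?_, ?_, ?_, ?_⟩ <;> linarith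
  · rw [h] at hn
    have hn' : n ≤ 40 := by
      have : 12 * n ≤ 12 * 40 + 7 := by linarith
      omega
    left
    exact ⟨h, by linarith⟩

theorem kx_aux {x M k : ℤ} (h : x ≤ M) (hk : (k = 0 ∨ k = 1) ∧ (k = 1 ↔ x = M)) :
    x ≤ M - 1 + k := by omega

theorem ky_aux {x M y N k : ℤ} (hx : x ≤ M) (hy : y ≤ N) (hk : (k = 0 ∨ k = 1) ∧ (k = 1 ↔ x = M))
    (cb : y = N → M ≤ x) : y ≤ N - 1 + k := by omega

theorem side_bd {fq gq hq M M' x y k : ℤ} (hrel : hq = fq - gq) (h1 : gq ≤ x) (h2 : hq ≤ y)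
    (hf : fq = M) (hlt : gq < M') (hk : (k = 0 ∨ k = 1) ∧ (k = 1 ↔ x = M')) :
    M - y ≤ gq ∧ gq ≤ x - k := by omega

theorem k_exists (x M : ℤ) : ∃ k : ℤ, (k = 0 ∨ k = 1) ∧ (k = 1 ↔ x = M) := by
  by_cases h : x = M
  · exact ⟨1, by omega, by omega⟩
  · exact ⟨0, by omega, by omega⟩

theorem kk_aux {x M k : ℤ} (hk : (k = 0 ∨ k = 1) ∧ (k = 1 ↔ x = M)) : 0 ≤ k ∧ k ≤ 1 := by omega

theorem cover_aux {M0 M1 M2 M3 M4 M5 a b : ℤ} (h0 : -a ≤ M0) (h1 : -a - b ≤ M1)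
    (h2 : -b ≤ M2) (h3 : a ≤ M3) (h4 : a + b ≤ M4) (h5 : b ≤ M5)
    (hL : 23 ≤ M0 + M1 + M2 + M3 + M4 + M5) :
    (-a < M0 ∧ -a - b < M1 ∧ -b < M2 ∧ a < M3 ∧ a + b < M4 ∧ b < M5) ∨
    (-a = M0 ∧ -a - b < M1) ∨ (-a - b = M1 ∧ -b < M2) ∨ (-b = M2 ∧ a < M3) ∨
    (a = M3 ∧ a + b < M4) ∨ (a + b = M4 ∧ b < M5) ∨ (b = M5 ∧ -a < M0) := by
  omega

set_option maxHeartbeats 4000000 in
theorem hex_main (s : Finset (ℤ × ℤ)) (hs : s.card = 54) :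
    ∃ u0 ∈ s, ∃ v0 ∈ s, ∃ u1 ∈ s, ∃ v1 ∈ s, ∃ u2 ∈ s, ∃ v2 ∈ s, ∃ u3 ∈ s, ∃ v3 ∈ s, ∃ u4 ∈ s, ∃ v4 ∈ s, ∃ u5 ∈ s, ∃ v5 ∈ s,
    ∃ M0 M1 M2 M3 M4 M5 : ℤ,
    -u0.1 = M0 ∧
    -v0.1 - v0.2 = M1 ∧
    -u1.1 - u1.2 = M1 ∧
    -v1.2 = M2 ∧
    -u2.2 = M2 ∧
    v2.1 = M3 ∧
    u3.1 = M3 ∧
    v3.1 + v3.2 = M4 ∧
    u4.1 + u4.2 = M4 ∧
    v4.2 = M5 ∧
    u5.2 = M5 ∧
    -v5.1 = M0 ∧
    ((26 ≤ M0 + M1 + M2 + M3 + M4 + M5 ∧ M0 + M1 + M2 + M3 + M4 + M5 ≤ (-u0.1 - u0.2) + (-v0.1) + (-u1.2) + (-v1.1 - v1.2) + (u2.1) + (-v2.2) + (u3.1 + u3.2) + (v3.1) + (u4.2) + (v4.1 + v4.2) + (-u5.1) + (v5.2)) ∨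
     (M0 + M1 + M2 + M3 + M4 + M5 = 25 ∧ 33 ≤ (-u0.1 - u0.2) + (-v0.1) + (-u1.2) + (-v1.1 - v1.2) + (u2.1) + (-v2.2) + (u3.1 + u3.2) + (v3.1) + (u4.2) + (v4.1 + v4.2) + (-u5.1) + (v5.2)) ∨
     (M0 + M1 + M2 + M3 + M4 + M5 = 24 ∧ 36 ≤ (-u0.1 - u0.2) + (-v0.1) + (-u1.2) + (-v1.1 - v1.2) + (u2.1) + (-v2.2) + (u3.1 + u3.2) + (v3.1) + (u4.2) + (v4.1 + v4.2) + (-u5.1) + (v5.2)) ∨
     (M0 + M1 + M2 + M3 + M4 + M5 = 23 ∧ 42 ≤ (-u0.1 - u0.2) + (-v0.1) + (-u1.2) + (-v1.1 - v1.2) + (u2.1) + (-v2.2) + (u3.1 + u3.2) + (v3.1) + (u4.2) + (v4.1 + v4.2) + (-u5.1) + (v5.2)) ∨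
     (M0 + M1 + M2 + M3 + M4 + M5 = 24 ∧ (-u0.1 - u0.2) + (-v0.1) + (-u1.2) + (-v1.1 - v1.2) + (u2.1) + (-v2.2) + (u3.1 + u3.2) + (v3.1) + (u4.2) + (v4.1 + v4.2) + (-u5.1) + (v5.2) = 35 ∧ -u0.1 - u0.2 ≤ M1 - 1 ∧ -v0.1 ≤ M0 - 1 ∧ -u1.2 ≤ M2 - 1 ∧ -v1.1 - v1.2 ≤ M1 - 1 ∧ u2.1 ≤ M3 - 1 ∧ -v2.2 ≤ M2 - 1 ∧ u3.1 + u3.2 ≤ M4 - 1 ∧ v3.1 ≤ M3 - 1 ∧ u4.2 ≤ M5 - 1 ∧ v4.1 + v4.2 ≤ M4 - 1 ∧ -u5.1 ≤ M0 - 1 ∧ v5.2 ≤ M5 - 1)) := by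
  have hne : s.Nonempty := by rw [← Finset.card_pos]; omega
  obtain ⟨u0, hu0, hum0, hun0⟩ := exists_extreme s hne (fun p => -p.1) (fun p => -p.1 - p.2)
  obtain ⟨v0, hv0, hvm0, hvn0⟩ := exists_extreme s hne (fun p => -p.1 - p.2) (fun p => -p.1)
  obtain ⟨u1, hu1, hum1, hun1⟩ := exists_extreme s hne (fun p => -p.1 - p.2) (fun p => -p.2)
  obtain ⟨v1, hv1, hvm1, hvn1⟩ := exists_extreme s hne (fun p => -p.2) (fun p => -p.1 - p.2)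
  obtain ⟨u2, hu2, hum2, hun2⟩ := exists_extreme s hne (fun p => -p.2) (fun p => p.1)
  obtain ⟨v2, hv2, hvm2, hvn2⟩ := exists_extreme s hne (fun p => p.1) (fun p => -p.2)
  obtain ⟨u3, hu3, hum3, hun3⟩ := exists_extreme s hne (fun p => p.1) (fun p => p.1 + p.2)
  obtain ⟨v3, hv3, hvm3, hvn3⟩ := exists_extreme s hne (fun p => p.1 + p.2) (fun p => p.1)
  obtain ⟨u4, hu4, hum4, hun4⟩ := exists_extreme s hne (fun p => p.1 + p.2) (fun p => p.2)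
  obtain ⟨v4, hv4, hvm4, hvn4⟩ := exists_extreme s hne (fun p => p.2) (fun p => p.1 + p.2)
  obtain ⟨u5, hu5, hum5, hun5⟩ := exists_extreme s hne (fun p => p.2) (fun p => -p.1)
  obtain ⟨v5, hv5, hvm5, hvn5⟩ := exists_extreme s hne (fun p => -p.1) (fun p => p.2)
  obtain ⟨M0, hM0⟩ : ∃ M : ℤ, -u0.1 = M := ⟨_, rfl⟩
  obtain ⟨M1, hM1⟩ : ∃ M : ℤ, -u1.1 - u1.2 = M := ⟨_, rfl⟩
  obtain ⟨M2, hM2⟩ : ∃ M : ℤ, -u2.2 = M := ⟨_, rfl⟩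
  obtain ⟨M3, hM3⟩ : ∃ M : ℤ, u3.1 = M := ⟨_, rfl⟩
  obtain ⟨M4, hM4⟩ : ∃ M : ℤ, u4.1 + u4.2 = M := ⟨_, rfl⟩
  obtain ⟨M5, hM5⟩ : ∃ M : ℤ, u5.2 = M := ⟨_, rfl⟩
  have e0 : -v0.1 - v0.2 = M1 := (le_antisymm (hum1 v0 hv0) (hvm0 u1 hu1)).trans hM1
  have e1 : -v1.2 = M2 := (le_antisymm (hum2 v1 hv1) (hvm1 u2 hu2)).trans hM2
  have e2 : v2.1 = M3 := (le_antisymm (hum3 v2 hv2) (hvm2 u3 hu3)).trans hM3
  have e3 : v3.1 + v3.2 = M4 := (le_antisymm (hum4 v3 hv3) (hvm3 u4 hu4)).trans hM4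
  have e4 : v4.2 = M5 := (le_antisymm (hum5 v4 hv4) (hvm4 u5 hu5)).trans hM5
  have e5 : -v5.1 = M0 := (le_antisymm (hum0 v5 hv5) (hvm5 u0 hu0)).trans hM0
  have hm0 : ∀ p ∈ s, -p.1 ≤ M0 := fun p hp => (hum0 p hp).trans hM0.le
  have hm1 : ∀ p ∈ s, -p.1 - p.2 ≤ M1 := fun p hp => (hum1 p hp).trans hM1.le
  have hm2 : ∀ p ∈ s, -p.2 ≤ M2 := fun p hp => (hum2 p hp).trans hM2.le
  have hm3 : ∀ p ∈ s, p.1 ≤ M3 := fun p hp => (hum3 p hp).trans hM3.le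
  have hm4 : ∀ p ∈ s, p.1 + p.2 ≤ M4 := fun p hp => (hum4 p hp).trans hM4.le
  have hm5 : ∀ p ∈ s, p.2 ≤ M5 := fun p hp => (hum5 p hp).trans hM5.le
  obtain ⟨x0, hx0⟩ : ∃ x : ℤ, -u0.1 - u0.2 = x := ⟨_, rfl⟩
  obtain ⟨y0, hy0⟩ : ∃ y : ℤ, -v0.1 = y := ⟨_, rfl⟩
  obtain ⟨x1, hx1⟩ : ∃ x : ℤ, -u1.2 = x := ⟨_, rfl⟩
  obtain ⟨y1, hy1⟩ : ∃ y : ℤ, -v1.1 - v1.2 = y := ⟨_, rfl⟩
  obtain ⟨x2, hx2⟩ : ∃ x : ℤ, u2.1 = x := ⟨_, rfl⟩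
  obtain ⟨y2, hy2⟩ : ∃ y : ℤ, -v2.2 = y := ⟨_, rfl⟩
  obtain ⟨x3, hx3⟩ : ∃ x : ℤ, u3.1 + u3.2 = x := ⟨_, rfl⟩
  obtain ⟨y3, hy3⟩ : ∃ y : ℤ, v3.1 = y := ⟨_, rfl⟩
  obtain ⟨x4, hx4⟩ : ∃ x : ℤ, u4.2 = x := ⟨_, rfl⟩
  obtain ⟨y4, hy4⟩ : ∃ y : ℤ, v4.1 + v4.2 = y := ⟨_, rfl⟩
  obtain ⟨x5, hx5⟩ : ∃ x : ℤ, -u5.1 = x := ⟨_, rfl⟩
  obtain ⟨y5, hy5⟩ : ∃ y : ℤ, v5.2 = y := ⟨_, rfl⟩
  have hun0' : ∀ q ∈ s, -q.1 = M0 → -q.1 - q.2 ≤ x0 :=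
    fun q hq h => (hun0 q hq (h.trans hM0.symm)).trans hx0.le
  have hvn0' : ∀ q ∈ s, -q.1 - q.2 = M1 → -q.1 ≤ y0 :=
    fun q hq h => (hvn0 q hq (h.trans e0.symm)).trans hy0.le
  have hun1' : ∀ q ∈ s, -q.1 - q.2 = M1 → -q.2 ≤ x1 :=
    fun q hq h => (hun1 q hq (h.trans hM1.symm)).trans hx1.le
  have hvn1' : ∀ q ∈ s, -q.2 = M2 → -q.1 - q.2 ≤ y1 :=
    fun q hq h => (hvn1 q hq (h.trans e1.symm)).trans hy1.le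
  have hun2' : ∀ q ∈ s, -q.2 = M2 → q.1 ≤ x2 :=
    fun q hq h => (hun2 q hq (h.trans hM2.symm)).trans hx2.le
  have hvn2' : ∀ q ∈ s, q.1 = M3 → -q.2 ≤ y2 :=
    fun q hq h => (hvn2 q hq (h.trans e2.symm)).trans hy2.le
  have hun3' : ∀ q ∈ s, q.1 = M3 → q.1 + q.2 ≤ x3 :=
    fun q hq h => (hun3 q hq (h.trans hM3.symm)).trans hx3.le
  have hvn3' : ∀ q ∈ s, q.1 + q.2 = M4 → q.1 ≤ y3 :=
    fun q hq h => (hvn3 q hq (h.trans e3.symm)).trans hy3.le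
  have hun4' : ∀ q ∈ s, q.1 + q.2 = M4 → q.2 ≤ x4 :=
    fun q hq h => (hun4 q hq (h.trans hM4.symm)).trans hx4.le
  have hvn4' : ∀ q ∈ s, q.2 = M5 → q.1 + q.2 ≤ y4 :=
    fun q hq h => (hvn4 q hq (h.trans e4.symm)).trans hy4.le
  have hun5' : ∀ q ∈ s, q.2 = M5 → -q.1 ≤ x5 :=
    fun q hq h => (hun5 q hq (h.trans hM5.symm)).trans hx5.le
  have hvn5' : ∀ q ∈ s, -q.1 = M0 → q.2 ≤ y5 :=
    fun q hq h => (hvn5 q hq (h.trans e5.symm)).trans hy5.le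
  clear hum0 hun0 hvm0 hvn0 hum1 hun1 hvm1 hvn1 hum2 hun2 hvm2 hvn2 hum3 hun3 hvm3 hvn3 hum4 hun4 hvm4 hvn4 hum5 hun5 hvm5 hvn5
  have ax0 : x0 ≤ M1 := hx0.symm.le.trans (hm1 u0 hu0)
  have ay0 : y0 ≤ M0 := hy0.symm.le.trans (hm0 v0 hv0)
  have ax1 : x1 ≤ M2 := hx1.symm.le.trans (hm2 u1 hu1)
  have ay1 : y1 ≤ M1 := hy1.symm.le.trans (hm1 v1 hv1)
  have ax2 : x2 ≤ M3 := hx2.symm.le.trans (hm3 u2 hu2)
  have ay2 : y2 ≤ M2 := hy2.symm.le.trans (hm2 v2 hv2)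
  have ax3 : x3 ≤ M4 := hx3.symm.le.trans (hm4 u3 hu3)
  have ay3 : y3 ≤ M3 := hy3.symm.le.trans (hm3 v3 hv3)
  have ax4 : x4 ≤ M5 := hx4.symm.le.trans (hm5 u4 hu4)
  have ay4 : y4 ≤ M4 := hy4.symm.le.trans (hm4 v4 hv4)
  have ax5 : x5 ≤ M0 := hx5.symm.le.trans (hm0 u5 hu5)
  have ay5 : y5 ≤ M5 := hy5.symm.le.trans (hm5 v5 hv5)
  have d1 : M1 ≤ x1 + y0 := by
    have h := hvn0' u1 hu1 hM1
    linarith [hM1, hx1]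
  have cb0 : y0 = M0 → M1 ≤ x0 := fun h => e0.symm.le.trans (hun0' v0 hv0 (hy0.trans h))
  have d2 : M2 ≤ x2 + y1 := by
    have h := hvn1' u2 hu2 hM2
    linarith [hM2, hx2]
  have cb1 : y1 = M1 → M2 ≤ x1 := fun h => e1.symm.le.trans (hun1' v1 hv1 (hy1.trans h))
  have d3 : M3 ≤ x3 + y2 := by
    have h := hvn2' u3 hu3 hM3
    linarith [hM3, hx3]
  have cb2 : y2 = M2 → M3 ≤ x2 := fun h => e2.symm.le.trans (hun2' v2 hv2 (hy2.trans h))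
  have d4 : M4 ≤ x4 + y3 := by
    have h := hvn3' u4 hu4 hM4
    linarith [hM4, hx4]
  have cb3 : y3 = M3 → M4 ≤ x3 := fun h => e3.symm.le.trans (hun3' v3 hv3 (hy3.trans h))
  have d5 : M5 ≤ x5 + y4 := by
    have h := hvn4' u5 hu5 hM5
    linarith [hM5, hx5]
  have cb4 : y4 = M4 → M5 ≤ x4 := fun h => e4.symm.le.trans (hun4' v4 hv4 (hy4.trans h))
  have d0 : M0 ≤ x0 + y5 := by
    have h := hvn5' u0 hu0 hM0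
    linarith [hM0, hx0]
  have cb5 : y5 = M5 → M0 ≤ x5 := fun h => e5.symm.le.trans (hun5' v5 hv5 (hy5.trans h))
  have l0 : M0 ≤ M1 + M5 := by linarith [d0, ax0, ay5]
  have l1 : M1 ≤ M2 + M0 := by linarith [d1, ax1, ay0]
  have l2 : M2 ≤ M3 + M1 := by linarith [d2, ax2, ay1]
  have l3 : M3 ≤ M4 + M2 := by linarith [d3, ax3, ay2]
  have l4 : M4 ≤ M5 + M3 := by linarith [d4, ax4, ay3]
  have l5 : M5 ≤ M0 + M4 := by linarith [d5, ax5, ay4]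
  have w0 : 0 ≤ M0 + M3 := by
    have h1 := hm3 u0 hu0
    linarith [hM0]
  have w1 : 0 ≤ M1 + M4 := by
    have h1 := hm4 u1 hu1
    linarith [hM1]
  have w2 : 0 ≤ M2 + M5 := by
    have h1 := hm5 u2 hu2
    linarith [hM2]
  have hS := hex_count' s (-M0) M3 (-M2) M5 (-M1) M4 (by linarith) (by linarith) (by linarith)
    (by linarith) (by linarith) (by linarith) (by linarith) (by linarith) (by linarith)
    (fun p hp => ⟨by linarith [hm0 p hp], hm3 p hp, by linarith [hm2 p hp], hm5 p hp,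
      by linarith [hm1 p hp], hm4 p hp⟩) _ _ _ rfl rfl rfl
  rw [hs] at hS
  refine ⟨u0, hu0, v0, hv0, u1, hu1, v1, hv1, u2, hu2, v2, hv2, u3, hu3, v3, hv3, u4, hu4, v4, hv4,
    u5, hu5, v5, hv5, M0, M1, M2, M3, M4, M5, hM0, e0, hM1, e1, hM2, e2, hM3, e3, hM4, e4, hM5, e5, ?_⟩
  rw [hx0, hy0, hx1, hy1, hx2, hy2, hx3, hy3, hx4, hy4, hx5, hy5]
  by_cases hL : 26 ≤ M0 + M1 + M2 + M3 + M4 + M5
  · left; refine ⟨hL, ?_⟩; linarith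
  right
  have hL' : M0 + M1 + M2 + M3 + M4 + M5 ≤ 25 := by
    have := Int.lt_iff_add_one_le.mp (not_le.mp hL)
    linarith
  have hA := arith1 M0 M1 M2 M3 M4 M5 (by linarith) (by linarith) (by linarith) (by linarith)
    (by linarith) (by linarith) w0 w1 w2 hL' (by
      have := sq_nonneg (M3 + M5 - M4 - (-M1 - -M0 - -M2))
      push_cast at hS
      nlinarith [hS])
  obtain ⟨hL23, hA1, hB1, hC1⟩ := hA
  obtain ⟨t, ht⟩ : ∃ t : Finset (ℤ × ℤ), t = s.filter (fun p => -p.1 < M0 ∧ -p.1 - p.2 < M1 ∧ -p.2 < M2 ∧ p.1 < M3 ∧ p.1 + p.2 < M4 ∧ p.2 < M5) := ⟨_, rfl⟩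
  have hT := hex_count' t (-M0 + 1) (M3 - 1) (-M2 + 1) (M5 - 1) (-M1 + 1) (M4 - 1) (by linarith)
    (by linarith) (by linarith) (by linarith) (by linarith) (by linarith) (by linarith)
    (by linarith) (by linarith)
    (fun p hp => by
      rw [ht, Finset.mem_filter] at hp
      obtain ⟨-, h0, h1, h2, h3, h4, h5⟩ := hp
      refine ⟨by omega, by omega, by omega, by omega, by omega, by omega⟩) _ _ _ rfl rfl rfl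
  obtain ⟨k0, hk0⟩ := k_exists x0 M1
  obtain ⟨k1, hk1⟩ := k_exists x1 M2
  obtain ⟨k2, hk2⟩ := k_exists x2 M3
  obtain ⟨k3, hk3⟩ := k_exists x3 M4
  obtain ⟨k4, hk4⟩ := k_exists x4 M5
  obtain ⟨k5, hk5⟩ := k_exists x5 M0
  have hc0 := side_card s (fun p => -p.1 - p.2) (fun p => -p.1 = M0 ∧ -p.1 - p.2 < M1)
    (M0 - y5) (x0 - k0)
    (by
      rintro p q ⟨hp, -⟩ ⟨hq, -⟩ hpq
      have hpq1 : -p.1 - p.2 = -q.1 - q.2 := hpq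
      apply Prod.ext <;> linarith)
    (fun q hq hq2 => side_bd (hq := q.2) (by ring) (hun0' q hq hq2.1)
      (hvn5' q hq hq2.1) hq2.1 hq2.2 hk0)
    (by have := kk_aux hk0; linarith)
  have hc1 := side_card s (fun p => -p.2) (fun p => -p.1 - p.2 = M1 ∧ -p.2 < M2)
    (M1 - y0) (x1 - k1)
    (by
      rintro p q ⟨hp, -⟩ ⟨hq, -⟩ hpq
      have hpq1 : -p.2 = -q.2 := hpq
      apply Prod.ext <;> linarith)
    (fun q hq hq2 => side_bd (hq := -q.1) (by ring) (hun1' q hq hq2.1)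
      (hvn0' q hq hq2.1) hq2.1 hq2.2 hk1)
    (by have := kk_aux hk1; linarith)
  have hc2 := side_card s (fun p => p.1) (fun p => -p.2 = M2 ∧ p.1 < M3)
    (M2 - y1) (x2 - k2)
    (by
      rintro p q ⟨hp, -⟩ ⟨hq, -⟩ hpq
      have hpq1 : p.1 = q.1 := hpq
      apply Prod.ext <;> linarith)
    (fun q hq hq2 => side_bd (hq := -q.1 - q.2) (by ring) (hun2' q hq hq2.1)
      (hvn1' q hq hq2.1) hq2.1 hq2.2 hk2)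
    (by have := kk_aux hk2; linarith)
  have hc3 := side_card s (fun p => p.1 + p.2) (fun p => p.1 = M3 ∧ p.1 + p.2 < M4)
    (M3 - y2) (x3 - k3)
    (by
      rintro p q ⟨hp, -⟩ ⟨hq, -⟩ hpq
      have hpq1 : p.1 + p.2 = q.1 + q.2 := hpq
      apply Prod.ext <;> linarith)
    (fun q hq hq2 => side_bd (hq := -q.2) (by ring) (hun3' q hq hq2.1)
      (hvn2' q hq hq2.1) hq2.1 hq2.2 hk3)
    (by have := kk_aux hk3; linarith)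
  have hc4 := side_card s (fun p => p.2) (fun p => p.1 + p.2 = M4 ∧ p.2 < M5)
    (M4 - y3) (x4 - k4)
    (by
      rintro p q ⟨hp, -⟩ ⟨hq, -⟩ hpq
      have hpq1 : p.2 = q.2 := hpq
      apply Prod.ext <;> linarith)
    (fun q hq hq2 => side_bd (hq := q.1) (by ring) (hun4' q hq hq2.1)
      (hvn3' q hq hq2.1) hq2.1 hq2.2 hk4)
    (by have := kk_aux hk4; linarith)
  have hc5 := side_card s (fun p => -p.1) (fun p => p.2 = M5 ∧ -p.1 < M0)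
    (M5 - y4) (x5 - k5)
    (by
      rintro p q ⟨hp, -⟩ ⟨hq, -⟩ hpq
      have hpq1 : -p.1 = -q.1 := hpq
      apply Prod.ext <;> linarith)
    (fun q hq hq2 => side_bd (hq := q.1 + q.2) (by ring) (hun5' q hq hq2.1)
      (hvn4' q hq hq2.1) hq2.1 hq2.2 hk5)
    (by have := kk_aux hk5; linarith)
  have hcover : s ⊆ t ∪ (s.filter (fun p => -p.1 = M0 ∧ -p.1 - p.2 < M1) ∪ (s.filter (fun p => -p.1 - p.2 = M1 ∧ -p.2 < M2) ∪ (s.filter (fun p => -p.2 = M2 ∧ p.1 < M3) ∪ (s.filter (fun p => p.1 = M3 ∧ p.1 + p.2 < M4) ∪ (s.filter (fun p => p.1 + p.2 = M4 ∧ p.2 < M5) ∪ (s.filter (fun p => p.2 = M5 ∧ -p.1 < M0))))))) := by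
    intro p hp
    have h0 := hm0 p hp
    have h1 := hm1 p hp
    have h2 := hm2 p hp
    have h3 := hm3 p hp
    have h4 := hm4 p hp
    have h5 := hm5 p hp
    simp only [ht, Finset.mem_union, Finset.mem_filter, hp, true_and]
    exact cover_aux h0 h1 h2 h3 h4 h5 hL23
  have hcard := Finset.card_le_card hcover
  have hcard2 : 54 ≤ t.card + ((s.filter (fun p => -p.1 = M0 ∧ -p.1 - p.2 < M1)).card + ((s.filter (fun p => -p.1 - p.2 = M1 ∧ -p.2 < M2)).card + ((s.filter (fun p => -p.2 = M2 ∧ p.1 < M3)).card + ((s.filter (fun p => p.1 = M3 ∧ p.1 + p.2 < M4)).card + ((s.filter (fun p => p.1 + p.2 = M4 ∧ p.2 < M5)).card + ((s.filter (fun p => p.2 = M5 ∧ -p.1 < M0)).card)))))) := by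
    rw [hs] at hcard
    refine hcard.trans ?_
    refine (Finset.card_union_le _ _).trans ?_
    refine Nat.add_le_add_left ((Finset.card_union_le _ _).trans ?_) _
    refine Nat.add_le_add_left ((Finset.card_union_le _ _).trans ?_) _
    refine Nat.add_le_add_left ((Finset.card_union_le _ _).trans ?_) _
    refine Nat.add_le_add_left ((Finset.card_union_le _ _).trans ?_) _
    exact Nat.add_le_add_left (Finset.card_union_le _ _) _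
  have hfin := arith2 M0 M1 M2 M3 M4 M5 x0 x1 x2 x3 x4 x5 y0 y1 y2 y3 y4 y5 k0 k1 k2 k3 k4 k5
    _ _ _ _ _ _ (t.card : ℤ)
    (kk_aux hk0).1 (kx_aux ax0 hk0) (ky_aux ax0 ay0 hk0 cb0) d0 hc0
    (kk_aux hk1).1 (kx_aux ax1 hk1) (ky_aux ax1 ay1 hk1 cb1) d1 hc1
    (kk_aux hk2).1 (kx_aux ax2 hk2) (ky_aux ax2 ay2 hk2 cb2) d2 hc2
    (kk_aux hk3).1 (kx_aux ax3 hk3) (ky_aux ax3 ay3 hk3 cb3) d3 hc3
    (kk_aux hk4).1 (kx_aux ax4 hk4) (ky_aux ax4 ay4 hk4 cb4) d4 hc4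
    (kk_aux hk5).1 (kx_aux ax5 hk5) (ky_aux ax5 ay5 hk5 cb5) d5 hc5
    hL23 hL' (by
      have h := hcard2
      zify at h
      linarith) (by
      have e : (M3 - 1 - (-M0 + 1)) + (M5 - 1 - (-M2 + 1)) + (M4 - 1 - (-M1 + 1))
        = M0 + M1 + M2 + M3 + M4 + M5 - 6 := by ring
      rw [e] at hT
      have e2 : 2 * (M4 - 1 - (-M1 + 1)) - (M3 - 1 - (-M0 + 1)) - (M5 - 1 - (-M2 + 1))
        = 2 * (M4 + M1) - (M3 + M0) - (M5 + M2) := by ring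
      rw [e2] at hT
      have e3 : (M3 - 1 - (-M0 + 1)) - (M5 - 1 - (-M2 + 1)) = (M3 + M0) - (M5 + M2) := by ring
      rw [e3] at hT
      have e4 : (M3 - 1 + (M5 - 1) - (M4 - 1) - (-M1 + 1 - (-M0 + 1) - (-M2 + 1)))
        = ((M3 + M5 - M4) - (M0 + M2 - M1)) := by ring
      rw [e4] at hT
      exact hT)
  simpa only [add_assoc] using hfin

end Pool.Agent.H45.Disk
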