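import Mathlib
import Pool.Agent.H45.DiskPolar

set_option autoImplicit false

open MeasureTheory Set
open scoped ENNReal Real RealInnerProductSpace

namespace Pool.Agent.H45.Disk

/-- Union of the disks of radius r about the points (X i, Y i) in the coordinate plane. -/
def UD {ι : Type*} (X Y : ι → ℝ) (r : ℝ) : Set (ℝ × ℝ) :=
  {p | ∃ i, (p.1 - X i) ^ 2 + (p.2 - Y i) ^ 2 ≤ r ^ 2}

theorem isClosed_UD {ι : Type*} [Finite ι] (X Y : ι → ℝ) (r : ℝ) : IsClosed (UD X Y r) := by
  have : UD X Y r = ⋃ i, {p : ℝ × ℝ | (p.1 - X i) ^ 2 + (p.2 - Y i) ^ 2 ≤ r ^ 2} := by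
    ext p; simp [UD]
  rw [this]
  apply isClosed_iUnion_of_finite
  intro i
  apply isClosed_le <;> fun_prop

theorem volume_union_eq {ι : Type*} [Finite ι] (b : OrthonormalBasis (Fin 2) ℝ (EuclideanSpace ℝ (Fin 2)))
    (p : EuclideanSpace ℝ (Fin 2)) (c : ι → EuclideanSpace ℝ (Fin 2)) {r : ℝ} (hr : 0 ≤ r) :
    volume (⋃ i, Metric.closedBall (c i) r)
      = volume (UD (fun i => ⟪b 0, c i - p⟫) (fun i => ⟪b 1, c i - p⟫) r) := by
  let T : EuclideanSpace ℝ (Fin 2) → ℝ × ℝ := fun x => (⟪b 0, x - p⟫, ⟪b 1, x - p⟫)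
  have hT : MeasurePreserving T volume volume := by
    have h1 : MeasurePreserving (fun x : EuclideanSpace ℝ (Fin 2) => x - p) volume volume :=
      measurePreserving_sub_right volume p
    have h2 := b.measurePreserving_repr
    have h3 : MeasurePreserving (@WithLp.ofLp 2 (Fin 2 → ℝ)) := PiLp.volume_preserving_ofLp (Fin 2)
    have h4 := volume_preserving_finTwoArrow ℝ
    have h5 := h4.comp (h3.comp (h2.comp h1))
    convert h5 using 1
    ext x <;> simp [T, MeasurableEquiv.finTwoArrow, b.repr_apply_apply, inner_sub_right]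
  have hpre : T ⁻¹' (UD (fun i => ⟪b 0, c i - p⟫) (fun i => ⟪b 1, c i - p⟫) r)
      = ⋃ i, Metric.closedBall (c i) r := by
    ext x
    simp only [T, UD, mem_preimage, mem_ofPred_eq, mem_iUnion, Metric.mem_closedBall]
    apply exists_congr
    intro i
    have e0 : ⟪b 0, x - p⟫ - ⟪b 0, c i - p⟫ = ⟪b 0, x - c i⟫ := by
      rw [← inner_sub_right]; congr 1; abel
    have e1 : ⟪b 1, x - p⟫ - ⟪b 1, c i - p⟫ = ⟪b 1, x - c i⟫ := by
      rw [← inner_sub_right]; congr 1; abel
    rw [e0, e1]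
    have h := b.sum_sq_inner_right (x - c i)
    rw [Fin.sum_univ_two] at h
    rw [h, dist_eq_norm]
    constructor
    · intro h'; exact (sq_le_sq₀ (norm_nonneg _) hr).mp h'
    · intro h'; exact (sq_le_sq₀ (norm_nonneg _) hr).mpr h'
  rw [← hpre, hT.measure_preimage (isClosed_UD _ _ _).measurableSet.nullMeasurableSet]

end Pool.Agent.H45.Disk
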