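import Mathlib
import Pool.Agent.H45.DiskPolar
import Pool.Agent.H45.DiskFrame
import Pool.Agent.H45.DiskHex

set_option autoImplicit false
set_option maxHeartbeats 1000000

open MeasureTheory Set
open scoped ENNReal Real

namespace Pool.Agent.H45.Disk

theorem trig_m {a b m m' θ : ℝ} (hm : √3 * a * Real.cos θ + (a + 2 * b) * Real.sin θ = √3 * m)
    (hm' : -(√3 * a) * Real.sin θ + (a + 2 * b) * Real.cos θ = 2 * m' - m) (ψ1 ψ2 : ℝ) :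
    √3 * a * (Real.sin (θ + ψ2) - Real.sin (θ + ψ1))
      + (a + 2 * b) * (Real.cos (θ + ψ1) - Real.cos (θ + ψ2))
    = 2 * (m * (Real.cos (π / 3 - ψ2) - Real.cos (π / 3 - ψ1))
        + m' * (Real.cos ψ1 - Real.cos ψ2)) := by
  rw [Real.sin_add, Real.sin_add, Real.cos_add, Real.cos_add, Real.cos_sub, Real.cos_sub,
    Real.cos_pi_div_three, Real.sin_pi_div_three]
  linear_combination (Real.sin ψ2 - Real.sin ψ1) * hm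
    + (Real.cos ψ1 - Real.cos ψ2) * hm'

theorem sector_lower {U : Set (ℝ × ℝ)} {r κ D θ θ' ψ a1 b1 a2 b2 m1 m1' m2 m2' c1 c2 : ℝ}
    (hθ : θ' = θ + π / 3) (hψ0 : 0 ≤ ψ) (hψ1 : ψ ≤ π / 3) (hD0 : 0 ≤ D)
    (hb1 : (√3 * a1) ^ 2 + (a1 + 2 * b1) ^ 2 ≤ D ^ 2)
    (hb2 : (√3 * a2) ^ 2 + (a2 + 2 * b2) ^ 2 ≤ D ^ 2)
    (hDκ : 2 * D ≤ κ) (hr : κ ^ 2 + D ^ 2 ≤ r ^ 2)
    (hU1 : ∀ p : ℝ × ℝ, (p.1 - √3 * a1) ^ 2 + (p.2 - (a1 + 2 * b1)) ^ 2 ≤ r ^ 2 → p ∈ U)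
    (hU2 : ∀ p : ℝ × ℝ, (p.1 - √3 * a2) ^ 2 + (p.2 - (a2 + 2 * b2)) ^ 2 ≤ r ^ 2 → p ∈ U)
    (hm1 : √3 * a1 * Real.cos θ + (a1 + 2 * b1) * Real.sin θ = √3 * m1)
    (hm1' : -(√3 * a1) * Real.sin θ + (a1 + 2 * b1) * Real.cos θ = 2 * m1' - m1)
    (hm2 : √3 * a2 * Real.cos θ + (a2 + 2 * b2) * Real.sin θ = √3 * m2)
    (hm2' : -(√3 * a2) * Real.sin θ + (a2 + 2 * b2) * Real.cos θ = 2 * m2' - m2)
    (hc1 : Real.cos ψ = c1) (hc2 : Real.cos (π / 3 - ψ) = c2) :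
    ENNReal.ofReal (κ ^ 2 / 2 * (π / 3) + κ * (2 * (m1 * (c2 - 1 / 2) + m1' * (1 - c1)
      + m2 * (1 - c2) + m2' * (c1 - 1 / 2)))) ≤ arc U θ θ' := by
  have h1 := arc_lower (U := U) (s := θ + 0) (t := θ + ψ) (by linarith) hD0 hb1 hDκ hr hU1
  have h2 := arc_lower (U := U) (s := θ + ψ) (t := θ + π / 3) (by linarith) hD0 hb2 hDκ hr hU2
  rw [trig_m hm1 hm1'] at h1
  rw [trig_m hm2 hm2'] at h2
  rw [hθ, arc_add U (show θ ≤ θ + ψ by linarith) (show θ + ψ ≤ θ + π / 3 by linarith)]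
  rw [add_zero] at h1
  refine le_trans ?_ (add_le_add h1 h2)
  refine le_trans ?_ ENNReal.ofReal_add_le
  apply ENNReal.ofReal_le_ofReal
  rw [hc1, hc2]
  simp only [Real.cos_zero, sub_zero, sub_self, Real.cos_pi_div_three]
  apply le_of_eq
  ring

/-- the special breakpoint -/
noncomputable def psi0 : ℝ := Real.arcsin (11 / 38)

theorem psi0_nonneg : 0 ≤ psi0 := Real.arcsin_nonneg.mpr (by norm_num)

theorem sqrt3_gt : (1.73205 : ℝ) < √3 := by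
  rw [show (1.73205:ℝ) = √(1.73205^2) by rw [Real.sqrt_sq (by norm_num)]]
  apply Real.sqrt_lt_sqrt <;> norm_num

theorem sqrt3_lt : √3 < (1.7320509 : ℝ) := by
  rw [show (1.7320509:ℝ) = √(1.7320509^2) by rw [Real.sqrt_sq (by norm_num)]]
  apply Real.sqrt_lt_sqrt <;> norm_num

theorem sqrt3_sq : √3 * √3 = (3 : ℝ) := Real.mul_self_sqrt (by norm_num)

theorem psi0_le : psi0 ≤ π / 3 := by
  unfold psi0
  rw [Real.arcsin_le_iff_le_sin (by norm_num [Set.mem_Icc]) (by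
    constructor <;> linarith [Real.pi_pos])]
  rw [Real.sin_pi_div_three]
  linarith [sqrt3_gt]

theorem cos_psi0 : Real.cos psi0 = 21 * √3 / 38 := by
  unfold psi0
  rw [Real.cos_arcsin]
  rw [show (1 - (11 / 38 : ℝ) ^ 2) = (21 * √3 / 38) ^ 2 by linear_combination (-441 / 1444) * sqrt3_sq]
  apply Real.sqrt_sq
  positivity

theorem sin_psi0 : Real.sin psi0 = 11 / 38 := by
  unfold psi0
  rw [Real.sin_arcsin (by norm_num) (by norm_num)]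

theorem cos_psi0' : Real.cos (π / 3 - psi0) = 8 * √3 / 19 := by
  rw [Real.cos_sub, cos_psi0, sin_psi0, Real.cos_pi_div_three, Real.sin_pi_div_three]
  ring

theorem cos_pi3_pi6 : Real.cos (π / 3 - π / 6) = √3 / 2 := by
  rw [show π / 3 - π / 6 = π / 6 by ring, Real.cos_pi_div_six]

/-- One sector: general 30 degree breakpoint. -/
theorem sector_gen {U : Set (ℝ × ℝ)} {r κ D θ θ' a1 b1 a2 b2 M α β M' : ℝ}
    (hθ : θ' = θ + π / 3) (hD0 : 0 ≤ D)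
    (hb1 : (√3 * a1) ^ 2 + (a1 + 2 * b1) ^ 2 ≤ D ^ 2)
    (hb2 : (√3 * a2) ^ 2 + (a2 + 2 * b2) ^ 2 ≤ D ^ 2)
    (hDκ : 2 * D ≤ κ) (hr : κ ^ 2 + D ^ 2 ≤ r ^ 2)
    (hU1 : ∀ p : ℝ × ℝ, (p.1 - √3 * a1) ^ 2 + (p.2 - (a1 + 2 * b1)) ^ 2 ≤ r ^ 2 → p ∈ U)
    (hU2 : ∀ p : ℝ × ℝ, (p.1 - √3 * a2) ^ 2 + (p.2 - (a2 + 2 * b2)) ^ 2 ≤ r ^ 2 → p ∈ U)
    (hm1 : √3 * a1 * Real.cos θ + (a1 + 2 * b1) * Real.sin θ = √3 * M)
    (hm1' : -(√3 * a1) * Real.sin θ + (a1 + 2 * b1) * Real.cos θ = 2 * α - M)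
    (hm2 : √3 * a2 * Real.cos θ + (a2 + 2 * b2) * Real.sin θ = √3 * β)
    (hm2' : -(√3 * a2) * Real.sin θ + (a2 + 2 * b2) * Real.cos θ = 2 * M' - β) :
    ENNReal.ofReal (κ ^ 2 / 2 * (π / 3) + κ * ((√3 - 1) * (M + M') + (2 - √3) * (α + β)))
      ≤ arc U θ θ' := by
  have h := sector_lower hθ (ψ := π / 6) (by positivity) (by linarith [Real.pi_pos]) hD0 hb1 hb2
    hDκ hr hU1 hU2 hm1 hm1' hm2 hm2' Real.cos_pi_div_six cos_pi3_pi6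
  refine le_trans (ENNReal.ofReal_le_ofReal (le_of_eq ?_)) h
  ring

/-- One sector in the special situation. -/
theorem sector_spec {U : Set (ℝ × ℝ)} {r κ D θ θ' a1 b1 a2 b2 M α β M' : ℝ}
    (hθ : θ' = θ + π / 3) (hD0 : 0 ≤ D)
    (hb1 : (√3 * a1) ^ 2 + (a1 + 2 * b1) ^ 2 ≤ D ^ 2)
    (hb2 : (√3 * a2) ^ 2 + (a2 + 2 * b2) ^ 2 ≤ D ^ 2)
    (hDκ : 2 * D ≤ κ) (hr : κ ^ 2 + D ^ 2 ≤ r ^ 2)
    (hU1 : ∀ p : ℝ × ℝ, (p.1 - √3 * a1) ^ 2 + (p.2 - (a1 + 2 * b1)) ^ 2 ≤ r ^ 2 → p ∈ U)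
    (hU2 : ∀ p : ℝ × ℝ, (p.1 - √3 * a2) ^ 2 + (p.2 - (a2 + 2 * b2)) ^ 2 ≤ r ^ 2 → p ∈ U)
    (hm1 : √3 * a1 * Real.cos θ + (a1 + 2 * b1) * Real.sin θ = √3 * M)
    (hm1' : -(√3 * a1) * Real.sin θ + (a1 + 2 * b1) * Real.cos θ = 2 * α - M)
    (hm2 : √3 * a2 * Real.cos θ + (a2 + 2 * b2) * Real.sin θ = √3 * β)
    (hm2' : -(√3 * a2) * Real.sin θ + (a2 + 2 * b2) * Real.cos θ = 2 * M' - β)
    (hs : (α = M' - 1 ∧ β = M - 1) ∨ (α = M' - 2 ∧ β = M - 1) ∨ (α = M' - 1 ∧ β = M - 2)) :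
    ENNReal.ofReal (κ ^ 2 / 2 * (π / 3) + κ * (M + M' - (4 - 2 * √3)
      - (2 - 20 * √3 / 19) * ((M' - 1 - α) + (M - 1 - β)))) ≤ arc U θ θ' := by
  rcases hs with ⟨h1, h2⟩ | ⟨h1, h2⟩ | ⟨h1, h2⟩
  · have h := sector_lower hθ (ψ := π / 6) (by positivity) (by linarith [Real.pi_pos]) hD0 hb1 hb2
      hDκ hr hU1 hU2 hm1 hm1' hm2 hm2' Real.cos_pi_div_six cos_pi3_pi6
    refine le_trans (ENNReal.ofReal_le_ofReal (le_of_eq ?_)) h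
    rw [h1, h2]; ring
  · have h := sector_lower hθ (ψ := psi0) psi0_nonneg psi0_le hD0 hb1 hb2
      hDκ hr hU1 hU2 hm1 hm1' hm2 hm2' cos_psi0 cos_psi0'
    refine le_trans (ENNReal.ofReal_le_ofReal (le_of_eq ?_)) h
    rw [h1, h2]; ring
  · have h := sector_lower hθ (ψ := π / 3 - psi0) (by linarith [psi0_le]) (by linarith [psi0_nonneg])
      hD0 hb1 hb2 hDκ hr hU1 hU2 hm1 hm1' hm2 hm2' cos_psi0'
      (by rw [show π / 3 - (π / 3 - psi0) = psi0 by ring, cos_psi0])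
    refine le_trans (ENNReal.ofReal_le_ofReal (le_of_eq ?_)) h
    rw [h1, h2]; ring

theorem six_sum {U : Set (ℝ × ℝ)} (hU : MeasurableSet U) {e0 e1 e2 e3 e4 e5 : ℝ}
    (h0 : ENNReal.ofReal e0 ≤ arc U (-π) (-(2 * π / 3)))
    (h1 : ENNReal.ofReal e1 ≤ arc U (-(2 * π / 3)) (-(π / 3)))
    (h2 : ENNReal.ofReal e2 ≤ arc U (-(π / 3)) 0)
    (h3 : ENNReal.ofReal e3 ≤ arc U 0 (π / 3))
    (h4 : ENNReal.ofReal e4 ≤ arc U (π / 3) (2 * π / 3))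
    (h5 : ENNReal.ofReal e5 ≤ arc U (2 * π / 3) π) :
    ENNReal.ofReal (e0 + e1 + e2 + e3 + e4 + e5) ≤ volume U := by
  have hp := Real.pi_pos
  rw [← arc_full hU, arc_add U (show -π ≤ 2 * π / 3 by linarith) (show 2 * π / 3 ≤ π by linarith),
    arc_add U (show -π ≤ π / 3 by linarith) (show π / 3 ≤ 2 * π / 3 by linarith),
    arc_add U (show -π ≤ 0 by linarith) (show 0 ≤ π / 3 by linarith),
    arc_add U (show -π ≤ -(π / 3) by linarith) (show -(π / 3) ≤ 0 by linarith),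
    arc_add U (show -π ≤ -(2 * π / 3) by linarith) (show -(2 * π / 3) ≤ -(π / 3) by linarith)]
  refine le_trans ?_ (add_le_add (add_le_add (add_le_add (add_le_add (add_le_add h0 h1) h2) h3) h4) h5)
  refine ENNReal.ofReal_add_le.trans (add_le_add ?_ le_rfl)
  refine ENNReal.ofReal_add_le.trans (add_le_add ?_ le_rfl)
  refine ENNReal.ofReal_add_le.trans (add_le_add ?_ le_rfl)
  refine ENNReal.ofReal_add_le.trans (add_le_add ?_ le_rfl)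
  exact ENNReal.ofReal_add_le

theorem six_sum_upper {U : Set (ℝ × ℝ)} (hU : MeasurableSet U) {e0 e1 e2 e3 e4 e5 : ℝ}
    (p0 : 0 ≤ e0) (p1 : 0 ≤ e1) (p2 : 0 ≤ e2) (p3 : 0 ≤ e3) (p4 : 0 ≤ e4) (p5 : 0 ≤ e5)
    (h0 : arc U (-π) (-(2 * π / 3)) ≤ ENNReal.ofReal e0)
    (h1 : arc U (-(2 * π / 3)) (-(π / 3)) ≤ ENNReal.ofReal e1)
    (h2 : arc U (-(π / 3)) 0 ≤ ENNReal.ofReal e2)
    (h3 : arc U 0 (π / 3) ≤ ENNReal.ofReal e3)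
    (h4 : arc U (π / 3) (2 * π / 3) ≤ ENNReal.ofReal e4)
    (h5 : arc U (2 * π / 3) π ≤ ENNReal.ofReal e5) :
    volume U ≤ ENNReal.ofReal (e0 + e1 + e2 + e3 + e4 + e5) := by
  have hp := Real.pi_pos
  rw [← arc_full hU, arc_add U (show -π ≤ 2 * π / 3 by linarith) (show 2 * π / 3 ≤ π by linarith),
    arc_add U (show -π ≤ π / 3 by linarith) (show π / 3 ≤ 2 * π / 3 by linarith),
    arc_add U (show -π ≤ 0 by linarith) (show 0 ≤ π / 3 by linarith),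
    arc_add U (show -π ≤ -(π / 3) by linarith) (show -(π / 3) ≤ 0 by linarith),
    arc_add U (show -π ≤ -(2 * π / 3) by linarith) (show -(2 * π / 3) ≤ -(π / 3) by linarith)]
  refine le_trans (add_le_add (add_le_add (add_le_add (add_le_add (add_le_add h0 h1) h2) h3) h4) h5) ?_
  rw [ENNReal.ofReal_add (by positivity) p5, ENNReal.ofReal_add (by positivity) p4,
    ENNReal.ofReal_add (by positivity) p3, ENNReal.ofReal_add (by positivity) p2,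
    ENNReal.ofReal_add p0 p1]

theorem cs0 : Real.cos (-π) = -1 ∧ Real.sin (-π) = 0 := by
  constructor
  · rw [Real.cos_neg, Real.cos_pi]
  · rw [Real.sin_neg, Real.sin_pi, neg_zero]

theorem cs5 : Real.cos (2 * π / 3) = -1 / 2 ∧ Real.sin (2 * π / 3) = √3 / 2 := by
  rw [show 2 * π / 3 = π - π / 3 by ring, Real.cos_pi_sub, Real.sin_pi_sub,
    Real.cos_pi_div_three, Real.sin_pi_div_three]
  constructor <;> ring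

theorem cs1 : Real.cos (-(2 * π / 3)) = -1 / 2 ∧ Real.sin (-(2 * π / 3)) = -√3 / 2 := by
  rw [Real.cos_neg, Real.sin_neg, cs5.1, cs5.2]
  constructor <;> ring

theorem cs2 : Real.cos (-(π / 3)) = 1 / 2 ∧ Real.sin (-(π / 3)) = -√3 / 2 := by
  rw [Real.cos_neg, Real.sin_neg, Real.cos_pi_div_three, Real.sin_pi_div_three]
  constructor <;> ring

theorem lat_lower (a b : Fin 54 → ℤ) (hinj : Function.Injective (fun i => (a i, b i)))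
    {r κ D : ℝ} (hD0 : 0 ≤ D)
    (hbd : ∀ i, (√3 * (a i : ℝ)) ^ 2 + ((a i : ℝ) + 2 * (b i : ℝ)) ^ 2 ≤ D ^ 2)
    (h2D : 2 * D ≤ κ) (hr : κ ^ 2 + D ^ 2 ≤ r ^ 2) :
    ENNReal.ofReal (π * κ ^ 2 + κ * 44.6)
      ≤ volume (UD (fun i => √3 * (a i : ℝ)) (fun i => (a i : ℝ) + 2 * (b i : ℝ)) r) := by
  obtain ⟨U, hUdef⟩ : ∃ U, U = UD (fun i => √3 * (a i : ℝ)) (fun i => (a i : ℝ) + 2 * (b i : ℝ)) r :=
    ⟨_, rfl⟩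
  have hUm : MeasurableSet U := by rw [hUdef]; exact (isClosed_UD _ _ _).measurableSet
  rw [← hUdef]
  obtain ⟨s, hsdef⟩ : ∃ s : Finset (ℤ × ℤ), s = Finset.univ.image (fun i => (a i, b i)) := ⟨_, rfl⟩
  have hs : s.card = 54 := by
    rw [hsdef, Finset.card_image_of_injective _ hinj]; simp
  have hmem : ∀ p ∈ s, ∃ i, (a i, b i) = p := by
    intro p hp
    rw [hsdef, Finset.mem_image] at hp
    obtain ⟨i, -, hi⟩ := hp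
    exact ⟨i, hi⟩
  have hB : ∀ p ∈ s, (√3 * (p.1 : ℝ)) ^ 2 + ((p.1 : ℝ) + 2 * (p.2 : ℝ)) ^ 2 ≤ D ^ 2 := by
    intro p hp
    obtain ⟨i, hi⟩ := hmem p hp
    rw [← hi]; exact hbd i
  have hUU : ∀ p ∈ s, ∀ q : ℝ × ℝ, (q.1 - √3 * (p.1 : ℝ)) ^ 2 +
      (q.2 - ((p.1 : ℝ) + 2 * (p.2 : ℝ))) ^ 2 ≤ r ^ 2 → q ∈ U := by
    intro p hp q hq
    obtain ⟨i, hi⟩ := hmem p hp
    rw [← hi] at hq
    rw [hUdef]; exact ⟨i, hq⟩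
  have h3 := sqrt3_sq
  have hg := sqrt3_gt
  have hl := sqrt3_lt
  have hκ0 : 0 ≤ κ := by linarith
  obtain ⟨u0, hu0, v0, hv0, u1, hu1, v1, hv1, u2, hu2, v2, hv2, u3, hu3, v3, hv3, u4, hu4, v4, hv4,
    u5, hu5, v5, hv5, M0, M1, M2, M3, M4, M5, e0, f0, e1, f1, e2, f2, e3, f3, e4, f4, e5, f5, hmain⟩
    := hex_main s hs
  have e0r : ((-u0.1 : ℤ) : ℝ) = M0 := by rw [e0]
  push_cast at e0r
  have f0r : ((-v0.1 - v0.2 : ℤ) : ℝ) = M1 := by rw [f0]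
  push_cast at f0r
  have e1r : ((-u1.1 - u1.2 : ℤ) : ℝ) = M1 := by rw [e1]
  push_cast at e1r
  have f1r : ((-v1.2 : ℤ) : ℝ) = M2 := by rw [f1]
  push_cast at f1r
  have e2r : ((-u2.2 : ℤ) : ℝ) = M2 := by rw [e2]
  push_cast at e2r
  have f2r : ((v2.1 : ℤ) : ℝ) = M3 := by rw [f2]
  push_cast at f2r
  have e3r : ((u3.1 : ℤ) : ℝ) = M3 := by rw [e3]
  push_cast at e3r
  have f3r : ((v3.1 + v3.2 : ℤ) : ℝ) = M4 := by rw [f3]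
  push_cast at f3r
  have e4r : ((u4.1 + u4.2 : ℤ) : ℝ) = M4 := by rw [e4]
  push_cast at e4r
  have f4r : ((v4.2 : ℤ) : ℝ) = M5 := by rw [f4]
  push_cast at f4r
  have e5r : ((u5.2 : ℤ) : ℝ) = M5 := by rw [e5]
  push_cast at e5r
  have f5r : ((-v5.1 : ℤ) : ℝ) = M0 := by rw [f5]
  push_cast at f5r
  have tA0 : ∀ x y : ℝ, √3 * x * Real.cos (-π) + (x + 2 * y) * Real.sin (-π) = √3 * (-x) := by
    intro x y; rw [cs0.1, cs0.2]; ring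
  have tB0 : ∀ x y : ℝ, -(√3 * x) * Real.sin (-π) + (x + 2 * y) * Real.cos (-π) = 2 * (-x - y) - (-x) := by
    intro x y; rw [cs0.1, cs0.2]; linear_combination (0) * h3
  have tA1 : ∀ x y : ℝ, √3 * x * Real.cos (-(2 * π / 3)) + (x + 2 * y) * Real.sin (-(2 * π / 3)) = √3 * (-x - y) := by
    intro x y; rw [cs1.1, cs1.2]; ring
  have tB1 : ∀ x y : ℝ, -(√3 * x) * Real.sin (-(2 * π / 3)) + (x + 2 * y) * Real.cos (-(2 * π / 3)) = 2 * (-y) - (-x - y) := by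
    intro x y; rw [cs1.1, cs1.2]; linear_combination (x / 2) * h3
  have tA2 : ∀ x y : ℝ, √3 * x * Real.cos (-(π / 3)) + (x + 2 * y) * Real.sin (-(π / 3)) = √3 * (-y) := by
    intro x y; rw [cs2.1, cs2.2]; ring
  have tB2 : ∀ x y : ℝ, -(√3 * x) * Real.sin (-(π / 3)) + (x + 2 * y) * Real.cos (-(π / 3)) = 2 * (x) - (-y) := by
    intro x y; rw [cs2.1, cs2.2]; linear_combination (x / 2) * h3
  have tA3 : ∀ x y : ℝ, √3 * x * Real.cos 0 + (x + 2 * y) * Real.sin 0 = √3 * (x) := by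
    intro x y; rw [Real.cos_zero, Real.sin_zero]; ring
  have tB3 : ∀ x y : ℝ, -(√3 * x) * Real.sin 0 + (x + 2 * y) * Real.cos 0 = 2 * (x + y) - (x) := by
    intro x y; rw [Real.cos_zero, Real.sin_zero]; linear_combination (0) * h3
  have tA4 : ∀ x y : ℝ, √3 * x * Real.cos (π / 3) + (x + 2 * y) * Real.sin (π / 3) = √3 * (x + y) := by
    intro x y; rw [Real.cos_pi_div_three, Real.sin_pi_div_three]; ring
  have tB4 : ∀ x y : ℝ, -(√3 * x) * Real.sin (π / 3) + (x + 2 * y) * Real.cos (π / 3) = 2 * (y) - (x + y) := by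
    intro x y; rw [Real.cos_pi_div_three, Real.sin_pi_div_three]; linear_combination (-x / 2) * h3
  have tA5 : ∀ x y : ℝ, √3 * x * Real.cos (2 * π / 3) + (x + 2 * y) * Real.sin (2 * π / 3) = √3 * (y) := by
    intro x y; rw [cs5.1, cs5.2]; ring
  have tB5 : ∀ x y : ℝ, -(√3 * x) * Real.sin (2 * π / 3) + (x + 2 * y) * Real.cos (2 * π / 3) = 2 * (-x) - (y) := by
    intro x y; rw [cs5.1, cs5.2]; linear_combination (-x / 2) * h3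
  have key : 44.6 ≤ 2 * (√3 - 1) * ((M0 : ℝ) + M1 + M2 + M3 + M4 + M5) + (2 - √3) * ((-(u0.1 : ℝ) - (u0.2 : ℝ)) + (-(v0.1 : ℝ)) + (-(u1.2 : ℝ)) + (-(v1.1 : ℝ) - (v1.2 : ℝ)) + ((u2.1 : ℝ)) + (-(v2.2 : ℝ)) + ((u3.1 : ℝ) + (u3.2 : ℝ)) + ((v3.1 : ℝ)) + ((u4.2 : ℝ)) + ((v4.1 : ℝ) + (v4.2 : ℝ)) + (-(u5.1 : ℝ)) + ((v5.2 : ℝ))) →
      ENNReal.ofReal (π * κ ^ 2 + κ * 44.6) ≤ volume U := by
    intro hkey
    have g0 := sector_gen (U := U) (θ := (-π)) (θ' := (-(2 * π / 3))) (M := M0) (M' := M1)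
      (α := -(u0.1 : ℝ) - (u0.2 : ℝ)) (β := -(v0.1 : ℝ)) (by ring) hD0 (hB u0 hu0) (hB v0 hv0) h2D hr (hUU u0 hu0) (hUU v0 hv0)
      (by rw [tA0, ← e0r]) (by rw [tB0, ← e0r]) (by rw [tA0]) (by rw [tB0, ← f0r])
    have g1 := sector_gen (U := U) (θ := (-(2 * π / 3))) (θ' := (-(π / 3))) (M := M1) (M' := M2)
      (α := -(u1.2 : ℝ)) (β := -(v1.1 : ℝ) - (v1.2 : ℝ)) (by ring) hD0 (hB u1 hu1) (hB v1 hv1) h2D hr (hUU u1 hu1) (hUU v1 hv1)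
      (by rw [tA1, ← e1r]) (by rw [tB1, ← e1r]) (by rw [tA1]) (by rw [tB1, ← f1r])
    have g2 := sector_gen (U := U) (θ := (-(π / 3))) (θ' := 0) (M := M2) (M' := M3)
      (α := (u2.1 : ℝ)) (β := -(v2.2 : ℝ)) (by ring) hD0 (hB u2 hu2) (hB v2 hv2) h2D hr (hUU u2 hu2) (hUU v2 hv2)
      (by rw [tA2, ← e2r]) (by rw [tB2, ← e2r]) (by rw [tA2]) (by rw [tB2, ← f2r])
    have g3 := sector_gen (U := U) (θ := 0) (θ' := (π / 3)) (M := M3) (M' := M4)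
      (α := (u3.1 : ℝ) + (u3.2 : ℝ)) (β := (v3.1 : ℝ)) (by ring) hD0 (hB u3 hu3) (hB v3 hv3) h2D hr (hUU u3 hu3) (hUU v3 hv3)
      (by rw [tA3, ← e3r]) (by rw [tB3, ← e3r]) (by rw [tA3]) (by rw [tB3, ← f3r])
    have g4 := sector_gen (U := U) (θ := (π / 3)) (θ' := (2 * π / 3)) (M := M4) (M' := M5)
      (α := (u4.2 : ℝ)) (β := (v4.1 : ℝ) + (v4.2 : ℝ)) (by ring) hD0 (hB u4 hu4) (hB v4 hv4) h2D hr (hUU u4 hu4) (hUU v4 hv4)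
      (by rw [tA4, ← e4r]) (by rw [tB4, ← e4r]) (by rw [tA4]) (by rw [tB4, ← f4r])
    have g5 := sector_gen (U := U) (θ := (2 * π / 3)) (θ' := π) (M := M5) (M' := M0)
      (α := -(u5.1 : ℝ)) (β := (v5.2 : ℝ)) (by ring) hD0 (hB u5 hu5) (hB v5 hv5) h2D hr (hUU u5 hu5) (hUU v5 hv5)
      (by rw [tA5, ← e5r]) (by rw [tB5, ← e5r]) (by rw [tA5]) (by rw [tB5, ← f5r])
    refine le_trans (ENNReal.ofReal_le_ofReal ?_) (six_sum hUm g0 g1 g2 g3 g4 g5)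
    nlinarith [mul_le_mul_of_nonneg_left hkey hκ0]
  have keyS : ((-(u0.1 : ℝ) - (u0.2 : ℝ) = M1 - 1 ∧ -(v0.1 : ℝ) = M0 - 1) ∨ (-(u0.1 : ℝ) - (u0.2 : ℝ) = M1 - 2 ∧ -(v0.1 : ℝ) = M0 - 1) ∨ (-(u0.1 : ℝ) - (u0.2 : ℝ) = M1 - 1 ∧ -(v0.1 : ℝ) = M0 - 2)) →
      ((-(u1.2 : ℝ) = M2 - 1 ∧ -(v1.1 : ℝ) - (v1.2 : ℝ) = M1 - 1) ∨ (-(u1.2 : ℝ) = M2 - 2 ∧ -(v1.1 : ℝ) - (v1.2 : ℝ) = M1 - 1) ∨ (-(u1.2 : ℝ) = M2 - 1 ∧ -(v1.1 : ℝ) - (v1.2 : ℝ) = M1 - 2)) →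
      (((u2.1 : ℝ) = M3 - 1 ∧ -(v2.2 : ℝ) = M2 - 1) ∨ ((u2.1 : ℝ) = M3 - 2 ∧ -(v2.2 : ℝ) = M2 - 1) ∨ ((u2.1 : ℝ) = M3 - 1 ∧ -(v2.2 : ℝ) = M2 - 2)) →
      (((u3.1 : ℝ) + (u3.2 : ℝ) = M4 - 1 ∧ (v3.1 : ℝ) = M3 - 1) ∨ ((u3.1 : ℝ) + (u3.2 : ℝ) = M4 - 2 ∧ (v3.1 : ℝ) = M3 - 1) ∨ ((u3.1 : ℝ) + (u3.2 : ℝ) = M4 - 1 ∧ (v3.1 : ℝ) = M3 - 2)) →
      (((u4.2 : ℝ) = M5 - 1 ∧ (v4.1 : ℝ) + (v4.2 : ℝ) = M4 - 1) ∨ ((u4.2 : ℝ) = M5 - 2 ∧ (v4.1 : ℝ) + (v4.2 : ℝ) = M4 - 1) ∨ ((u4.2 : ℝ) = M5 - 1 ∧ (v4.1 : ℝ) + (v4.2 : ℝ) = M4 - 2)) →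
      ((-(u5.1 : ℝ) = M0 - 1 ∧ (v5.2 : ℝ) = M5 - 1) ∨ (-(u5.1 : ℝ) = M0 - 2 ∧ (v5.2 : ℝ) = M5 - 1) ∨ (-(u5.1 : ℝ) = M0 - 1 ∧ (v5.2 : ℝ) = M5 - 2)) →
      44.6 ≤ 2 * ((M0 : ℝ) + M1 + M2 + M3 + M4 + M5) - 6 * (4 - 2 * √3) - (2 - 20 * √3 / 19) * (2 * ((M0 : ℝ) + M1 + M2 + M3 + M4 + M5) - 12 - ((-(u0.1 : ℝ) - (u0.2 : ℝ)) + (-(v0.1 : ℝ)) + (-(u1.2 : ℝ)) + (-(v1.1 : ℝ) - (v1.2 : ℝ)) + ((u2.1 : ℝ)) + (-(v2.2 : ℝ)) + ((u3.1 : ℝ) + (u3.2 : ℝ)) + ((v3.1 : ℝ)) + ((u4.2 : ℝ)) + ((v4.1 : ℝ) + (v4.2 : ℝ)) + (-(u5.1 : ℝ)) + ((v5.2 : ℝ)))) →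
      ENNReal.ofReal (π * κ ^ 2 + κ * 44.6) ≤ volume U := by
    intro s0 s1 s2 s3 s4 s5 hkey
    have g0 := sector_spec (U := U) (θ := (-π)) (θ' := (-(2 * π / 3))) (M := M0) (M' := M1)
      (α := -(u0.1 : ℝ) - (u0.2 : ℝ)) (β := -(v0.1 : ℝ)) (by ring) hD0 (hB u0 hu0) (hB v0 hv0) h2D hr (hUU u0 hu0) (hUU v0 hv0)
      (by rw [tA0, ← e0r]) (by rw [tB0, ← e0r]) (by rw [tA0]) (by rw [tB0, ← f0r]) s0
    have g1 := sector_spec (U := U) (θ := (-(2 * π / 3))) (θ' := (-(π / 3))) (M := M1) (M' := M2)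
      (α := -(u1.2 : ℝ)) (β := -(v1.1 : ℝ) - (v1.2 : ℝ)) (by ring) hD0 (hB u1 hu1) (hB v1 hv1) h2D hr (hUU u1 hu1) (hUU v1 hv1)
      (by rw [tA1, ← e1r]) (by rw [tB1, ← e1r]) (by rw [tA1]) (by rw [tB1, ← f1r]) s1
    have g2 := sector_spec (U := U) (θ := (-(π / 3))) (θ' := 0) (M := M2) (M' := M3)
      (α := (u2.1 : ℝ)) (β := -(v2.2 : ℝ)) (by ring) hD0 (hB u2 hu2) (hB v2 hv2) h2D hr (hUU u2 hu2) (hUU v2 hv2)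
      (by rw [tA2, ← e2r]) (by rw [tB2, ← e2r]) (by rw [tA2]) (by rw [tB2, ← f2r]) s2
    have g3 := sector_spec (U := U) (θ := 0) (θ' := (π / 3)) (M := M3) (M' := M4)
      (α := (u3.1 : ℝ) + (u3.2 : ℝ)) (β := (v3.1 : ℝ)) (by ring) hD0 (hB u3 hu3) (hB v3 hv3) h2D hr (hUU u3 hu3) (hUU v3 hv3)
      (by rw [tA3, ← e3r]) (by rw [tB3, ← e3r]) (by rw [tA3]) (by rw [tB3, ← f3r]) s3
    have g4 := sector_spec (U := U) (θ := (π / 3)) (θ' := (2 * π / 3)) (M := M4) (M' := M5)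
      (α := (u4.2 : ℝ)) (β := (v4.1 : ℝ) + (v4.2 : ℝ)) (by ring) hD0 (hB u4 hu4) (hB v4 hv4) h2D hr (hUU u4 hu4) (hUU v4 hv4)
      (by rw [tA4, ← e4r]) (by rw [tB4, ← e4r]) (by rw [tA4]) (by rw [tB4, ← f4r]) s4
    have g5 := sector_spec (U := U) (θ := (2 * π / 3)) (θ' := π) (M := M5) (M' := M0)
      (α := -(u5.1 : ℝ)) (β := (v5.2 : ℝ)) (by ring) hD0 (hB u5 hu5) (hB v5 hv5) h2D hr (hUU u5 hu5) (hUU v5 hv5)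
      (by rw [tA5, ← e5r]) (by rw [tB5, ← e5r]) (by rw [tA5]) (by rw [tB5, ← f5r]) s5
    refine le_trans (ENNReal.ofReal_le_ofReal ?_) (six_sum hUm g0 g1 g2 g3 g4 g5)
    nlinarith [mul_le_mul_of_nonneg_left hkey hκ0]
  obtain ⟨Lz, hLz⟩ : ∃ L : ℤ, L = M0 + M1 + M2 + M3 + M4 + M5 := ⟨_, rfl⟩
  obtain ⟨Tz, hTz⟩ : ∃ T : ℤ, T = (-u0.1 - u0.2) + (-v0.1) + (-u1.2) + (-v1.1 - v1.2) + (u2.1) + (-v2.2) + (u3.1 + u3.2) + (v3.1) + (u4.2) + (v4.1 + v4.2) + (-u5.1) + (v5.2) := ⟨_, rfl⟩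
  have hLzr : (Lz : ℝ) = (M0 : ℝ) + M1 + M2 + M3 + M4 + M5 := by rw [hLz]; push_cast; ring
  have hTzr : (Tz : ℝ) = (-(u0.1 : ℝ) - (u0.2 : ℝ)) + (-(v0.1 : ℝ)) + (-(u1.2 : ℝ)) + (-(v1.1 : ℝ) - (v1.2 : ℝ)) + ((u2.1 : ℝ)) + (-(v2.2 : ℝ)) + ((u3.1 : ℝ) + (u3.2 : ℝ)) + ((v3.1 : ℝ)) + ((u4.2 : ℝ)) + ((v4.1 : ℝ) + (v4.2 : ℝ)) + (-(u5.1 : ℝ)) + ((v5.2 : ℝ)) := by rw [hTz]; push_cast; ring
  rw [← hLzr, ← hTzr] at key keyS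
  rw [← hLz, ← hTz] at hmain
  rcases hmain with ⟨h1, h2⟩ | ⟨h1, h2⟩ | ⟨h1, h2⟩ | ⟨h1, h2⟩ | ⟨h1, h2, hx⟩
  · apply key
    have h1r : (26 : ℝ) ≤ Lz := by exact_mod_cast h1
    have h2r : (Lz : ℝ) ≤ Tz := by exact_mod_cast h2
    nlinarith
  · apply key
    have h1r : (Lz : ℝ) = 25 := by exact_mod_cast h1
    have h2r : (33 : ℝ) ≤ Tz := by exact_mod_cast h2
    rw [h1r]; nlinarith
  · apply key
    have h1r : (Lz : ℝ) = 24 := by exact_mod_cast h1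
    have h2r : (36 : ℝ) ≤ Tz := by exact_mod_cast h2
    rw [h1r]; nlinarith
  · apply key
    have h1r : (Lz : ℝ) = 23 := by exact_mod_cast h1
    have h2r : (42 : ℝ) ≤ Tz := by exact_mod_cast h2
    rw [h1r]; nlinarith
  · have h1r : (Lz : ℝ) = 24 := by exact_mod_cast h1
    have h2r : (Tz : ℝ) = 35 := by exact_mod_cast h2
    obtain ⟨x0, y0, x1, y1, x2, y2, x3, y3, x4, y4, x5, y5⟩ := hx
    apply keyS
    · have hz : (-u0.1 - u0.2 = M1 - 1 ∧ -v0.1 = M0 - 1) ∨ (-u0.1 - u0.2 = M1 - 2 ∧ -v0.1 = M0 - 1) ∨ (-u0.1 - u0.2 = M1 - 1 ∧ -v0.1 = M0 - 2) := by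
        clear key keyS hUU hB hmem hbd hinj
        omega
      exact_mod_cast hz
    · have hz : (-u1.2 = M2 - 1 ∧ -v1.1 - v1.2 = M1 - 1) ∨ (-u1.2 = M2 - 2 ∧ -v1.1 - v1.2 = M1 - 1) ∨ (-u1.2 = M2 - 1 ∧ -v1.1 - v1.2 = M1 - 2) := by
        clear key keyS hUU hB hmem hbd hinj
        omega
      exact_mod_cast hz
    · have hz : (u2.1 = M3 - 1 ∧ -v2.2 = M2 - 1) ∨ (u2.1 = M3 - 2 ∧ -v2.2 = M2 - 1) ∨ (u2.1 = M3 - 1 ∧ -v2.2 = M2 - 2) := by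
        clear key keyS hUU hB hmem hbd hinj
        omega
      exact_mod_cast hz
    · have hz : (u3.1 + u3.2 = M4 - 1 ∧ v3.1 = M3 - 1) ∨ (u3.1 + u3.2 = M4 - 2 ∧ v3.1 = M3 - 1) ∨ (u3.1 + u3.2 = M4 - 1 ∧ v3.1 = M3 - 2) := by
        clear key keyS hUU hB hmem hbd hinj
        omega
      exact_mod_cast hz
    · have hz : (u4.2 = M5 - 1 ∧ v4.1 + v4.2 = M4 - 1) ∨ (u4.2 = M5 - 2 ∧ v4.1 + v4.2 = M4 - 1) ∨ (u4.2 = M5 - 1 ∧ v4.1 + v4.2 = M4 - 2) := by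
        clear key keyS hUU hB hmem hbd hinj
        omega
      exact_mod_cast hz
    · have hz : (-u5.1 = M0 - 1 ∧ v5.2 = M5 - 1) ∨ (-u5.1 = M0 - 2 ∧ v5.2 = M5 - 1) ∨ (-u5.1 = M0 - 1 ∧ v5.2 = M5 - 2) := by
        clear key keyS hUU hB hmem hbd hinj
        omega
      exact_mod_cast hz
    · rw [h1r, h2r]; linarith

end Pool.Agent.H45.Disk
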