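import Mathlib

set_option autoImplicit false

namespace Pool.Agent.H45.Disk

/-- The 54 centres of the counterexample, in lattice coordinates scaled by 9700. -/
def pts : List (ℤ × ℤ) :=
    [(-38800, 9700), (-38800, 19400), (-38800, 29100), (-29100, -9700), (-29100, 0), (-29100,
    9700), (-29100, 19400), (-29100, 29100), (-29100, 38800), (-19400, -19400), (-19400, -9700),
    (-19400, 0), (-19400, 9700), (-19400, 19400), (-19400, 29100), (-19400, 38800), (-9700,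
    -29100), (-9700, -19400), (-9700, -9700), (-9700, 0), (-9700, 9700), (-9700, 19400), (-9700,
    29100), (-9700, 38800), (0, -29100), (0, -19400), (0, -9700), (0, 0), (0, 9700), (0, 19400),
    (0, 29100), (9700, -38800), (9700, -29100), (9700, -19400), (9700, -9700), (9700, 0), (9700,
    9700), (9700, 19400), (9700, 29100), (19400, -38800), (19400, -29100), (19400, -19400), (19400,
    -9700), (19400, 0), (19400, 9700), (19400, 19400), (29100, -38800), (29100, -29100), (29100,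
    -19400), (29100, -9700), (38800, -29100), (38800, -19400), (30547, 5626), (36173, -5626)]

theorem pts_length : pts.length = 54 := rfl

set_option maxRecDepth 100000 in
theorem pts_pairwise : pts.Pairwise (fun p q => 94090000 ≤ (p.1 - q.1) * (p.1 - q.1)
    + (p.1 - q.1) * (p.2 - q.2) + (p.2 - q.2) * (p.2 - q.2)) := by decide

set_option maxRecDepth 100000 in
theorem pts_sec0 : ∀ p ∈ pts, -p.1 ≤ 38800 ∧ -p.1 - p.2 ≤ 38800 ∧
    (-p.1 ≤ 29100 ∨ -p.1 - p.2 ≤ 29100) := by decide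

set_option maxRecDepth 100000 in
theorem pts_sec1 : ∀ p ∈ pts, -p.1 - p.2 ≤ 38800 ∧ -p.2 ≤ 38800 ∧
    (-p.1 - p.2 ≤ 29100 ∨ -p.2 ≤ 29100) := by decide

set_option maxRecDepth 100000 in
theorem pts_sec2 : ∀ p ∈ pts, -p.2 ≤ 38800 ∧ p.1 ≤ 38800 ∧
    (-p.2 ≤ 29100 ∨ p.1 ≤ 29100) := by decide

set_option maxRecDepth 100000 in
theorem pts_sec4 : ∀ p ∈ pts, p.1 + p.2 ≤ 38800 ∧ p.2 ≤ 38800 ∧
    (p.1 + p.2 ≤ 29100 ∨ p.2 ≤ 29100) := by decide

set_option maxRecDepth 100000 in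
theorem pts_sec5 : ∀ p ∈ pts, p.2 ≤ 38800 ∧ -p.1 ≤ 38800 ∧
    (p.2 ≤ 29100 ∨ -p.1 ≤ 29100) := by decide

set_option maxRecDepth 100000 in
theorem pts_sec3 : ∀ p ∈ pts, (p.1 ≤ 38800 ∧ p.1 + p.2 ≤ 38800 ∧
    (p.1 ≤ 19400 ∨ p.1 + p.2 ≤ 19400)) ∨ (p.1 = 36173 ∧ p.1 + p.2 = 30547) ∨
    (p.1 = 30547 ∧ p.1 + p.2 = 36173) := by decide

end Pool.Agent.H45.Disk
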