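import Mathlib
import Pool.Agent.H45.DiskPolar
import Pool.Agent.H45.DiskFrame
import Pool.Agent.H45.DiskLat
import Pool.Agent.H45.DiskPts

set_option autoImplicit false
set_option maxHeartbeats 1000000

open MeasureTheory Set
open scoped ENNReal Real

namespace Pool.Agent.H45.Disk

theorem trig_val {a b m m' θ : ℝ} (hm : √3 * a * Real.cos θ + (a + 2 * b) * Real.sin θ = √3 * m)
    (hm' : -(√3 * a) * Real.sin θ + (a + 2 * b) * Real.cos θ = 2 * m' - m) (ψ : ℝ) :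
    √3 * a * Real.cos (θ + ψ) + (a + 2 * b) * Real.sin (θ + ψ)
    = 2 * (m * Real.sin (π / 3 - ψ) + m' * Real.sin ψ) := by
  rw [Real.sin_add, Real.cos_add, Real.sin_sub,
    Real.cos_pi_div_three, Real.sin_pi_div_three]
  linear_combination (Real.cos ψ) * hm + (Real.sin ψ) * hm'

/-- Upper bound for one arc, in local coordinates. -/
theorem arc_upper_m {ι : Type*} [Finite ι] {A B : ι → ℝ} {m m' : ι → ℝ}
    {r D θ ψ1 ψ2 a b n n' : ℝ}
    (h12 : ψ1 ≤ ψ2) (hD0 : 0 ≤ D) (hb : (√3 * a) ^ 2 + (a + 2 * b) ^ 2 ≤ D ^ 2) (hDr : D ≤ r)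
    (hm : ∀ i, √3 * A i * Real.cos θ + (A i + 2 * B i) * Real.sin θ = √3 * m i)
    (hm' : ∀ i, -(√3 * A i) * Real.sin θ + (A i + 2 * B i) * Real.cos θ = 2 * m' i - m i)
    (hn : √3 * a * Real.cos θ + (a + 2 * b) * Real.sin θ = √3 * n)
    (hn' : -(√3 * a) * Real.sin θ + (a + 2 * b) * Real.cos θ = 2 * n' - n)
    (hle : ∀ i, ∀ ψ, ψ1 ≤ ψ → ψ ≤ ψ2 →
      m i * Real.sin (π / 3 - ψ) + m' i * Real.sin ψ ≤ n * Real.sin (π / 3 - ψ) + n' * Real.sin ψ) :
    arc (UD (fun i => √3 * A i) (fun i => A i + 2 * B i) r) (θ + ψ1) (θ + ψ2)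
      ≤ ENNReal.ofReal ((r ^ 2 + D ^ 2) / 2 * (ψ2 - ψ1) +
      r * (2 * (n * (Real.cos (π / 3 - ψ2) - Real.cos (π / 3 - ψ1))
        + n' * (Real.cos ψ1 - Real.cos ψ2)))) := by
  have hr0 : 0 ≤ r := hD0.trans hDr
  have h := arc_upper (U := UD (fun i => √3 * A i) (fun i => A i + 2 * B i) r)
    (s := θ + ψ1) (t := θ + ψ2) (by linarith) hD0 hb hDr (by
      intro φ hφ ρ hρ hmem
      obtain ⟨i, hi⟩ := hmem
      have e1 := trig_val (hm i) (hm' i) (φ - θ)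
      have e2 := trig_val hn hn' (φ - θ)
      have hl := hle i (φ - θ) (by linarith [hφ.1]) (by linarith [hφ.2])
      rw [show θ + (φ - θ) = φ by ring] at e1 e2
      rw [e2]
      simp only at hi
      have hcs := Real.sin_sq_add_cos_sq φ
      set x := √3 * A i with hx
      set y := A i + 2 * B i with hy
      have h1 : (ρ * Real.cos φ - x) ^ 2 + (ρ * Real.sin φ - y) ^ 2
          = (ρ - (x * Real.cos φ + y * Real.sin φ)) ^ 2
            + (x * Real.sin φ - y * Real.cos φ) ^ 2 := by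
        linear_combination (ρ ^ 2 - x ^ 2 - y ^ 2) * hcs
      rw [h1, e1] at hi
      have h2 : (ρ - 2 * (m i * Real.sin (π / 3 - (φ - θ)) + m' i * Real.sin (φ - θ))) ^ 2 ≤ r ^ 2 := by
        nlinarith [sq_nonneg (x * Real.sin φ - y * Real.cos φ)]
      have h3 := (abs_le_of_sq_le_sq' h2 hr0).2
      linarith)
  rw [trig_m hn hn'] at h
  refine h.trans (ENNReal.ofReal_le_ofReal (le_of_eq ?_))
  ring

theorem sin_nonneg' {ψ : ℝ} (h0 : 0 ≤ ψ) (h1 : ψ ≤ π / 3) : 0 ≤ Real.sin ψ :=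
  Real.sin_nonneg_of_nonneg_of_le_pi h0 (by linarith [Real.pi_pos])

theorem sin_nonneg'' {ψ : ℝ} (h0 : 0 ≤ ψ) (h1 : ψ ≤ π / 3) : 0 ≤ Real.sin (π / 3 - ψ) :=
  Real.sin_nonneg_of_nonneg_of_le_pi (by linarith) (by linarith [Real.pi_pos])

theorem sin_le_sin'' {ψ : ℝ} (h0 : 0 ≤ ψ) (h1 : ψ ≤ π / 6) : Real.sin ψ ≤ Real.sin (π / 3 - ψ) := by
  apply Real.sin_le_sin_of_le_of_le_pi_div_two <;> linarith [Real.pi_pos]

theorem sin_le_sin' {ψ : ℝ} (h0 : π / 6 ≤ ψ) (h1 : ψ ≤ π / 3) :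
    Real.sin (π / 3 - ψ) ≤ Real.sin ψ := by
  apply Real.sin_le_sin_of_le_of_le_pi_div_two <;> linarith [Real.pi_pos]

/-- Upper bound for a regular sector. -/
theorem sector_upper_reg {ι : Type*} [Finite ι] {A B : ι → ℝ} {m m' : ι → ℝ}
    {r D θ θ' a1 b1 a2 b2 : ℝ} (hθ : θ' = θ + π / 3)
    (hD0 : 0 ≤ D) (hb1 : (√3 * a1) ^ 2 + (a1 + 2 * b1) ^ 2 ≤ D ^ 2)
    (hb2 : (√3 * a2) ^ 2 + (a2 + 2 * b2) ^ 2 ≤ D ^ 2) (hDr : D ≤ r)
    (hm : ∀ i, √3 * A i * Real.cos θ + (A i + 2 * B i) * Real.sin θ = √3 * m i)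
    (hm' : ∀ i, -(√3 * A i) * Real.sin θ + (A i + 2 * B i) * Real.cos θ = 2 * m' i - m i)
    (hn1 : √3 * a1 * Real.cos θ + (a1 + 2 * b1) * Real.sin θ = √3 * 4)
    (hn1' : -(√3 * a1) * Real.sin θ + (a1 + 2 * b1) * Real.cos θ = 2 * 3 - 4)
    (hn2 : √3 * a2 * Real.cos θ + (a2 + 2 * b2) * Real.sin θ = √3 * 3)
    (hn2' : -(√3 * a2) * Real.sin θ + (a2 + 2 * b2) * Real.cos θ = 2 * 4 - 3)
    (hM : ∀ i, m i ≤ 4 ∧ m' i ≤ 4 ∧ (m i ≤ 3 ∨ m' i ≤ 3)) :
    arc (UD (fun i => √3 * A i) (fun i => A i + 2 * B i) r) θ θ'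
      ≤ ENNReal.ofReal ((r ^ 2 + D ^ 2) / 2 * (π / 3) + r * (2 * √3 + 4)) := by
  have hp := Real.pi_pos
  have hr0 : 0 ≤ r := hD0.trans hDr
  have h3 := sqrt3_gt
  have h1 := arc_upper_m (ψ1 := 0) (ψ2 := π / 6) (by positivity) hD0 hb1 hDr hm hm' hn1 hn1' (by
    intro i ψ h0 h1
    have s1 := sin_nonneg' h0 (by linarith)
    have s2 := sin_le_sin'' h0 h1
    obtain ⟨q1, q2, q3⟩ := hM i
    rcases q3 with q3 | q3 <;> nlinarith)
  have h2 := arc_upper_m (ψ1 := π / 6) (ψ2 := π / 3) (by linarith) hD0 hb2 hDr hm hm' hn2 hn2' (by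
    intro i ψ h0 h1
    have s1 := sin_nonneg'' (by linarith) h1
    have s2 := sin_le_sin' h0 h1
    obtain ⟨q1, q2, q3⟩ := hM i
    rcases q3 with q3 | q3 <;> nlinarith)
  rw [hθ, arc_add _ (show θ ≤ θ + π / 6 by linarith) (show θ + π / 6 ≤ θ + π / 3 by linarith)]
  rw [add_zero] at h1
  refine (add_le_add h1 h2).trans ?_
  rw [← ENNReal.ofReal_add]
  · apply ENNReal.ofReal_le_ofReal
    rw [cos_pi3_pi6, Real.cos_pi_div_six]
    simp only [Real.cos_zero, sub_zero, sub_self, Real.cos_pi_div_three]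
    apply le_of_eq
    ring
  · rw [cos_pi3_pi6, Real.cos_pi_div_six]
    simp only [Real.cos_zero, sub_zero, Real.cos_pi_div_three]
    have : 0 ≤ 2 * (4 * (√3 / 2 - 1 / 2) + 3 * (1 - √3 / 2)) := by linarith [sqrt3_lt]
    positivity
  · rw [cos_pi3_pi6, Real.cos_pi_div_six]
    simp only [sub_self, Real.cos_zero, Real.cos_pi_div_three]
    have : 0 ≤ 2 * (3 * (1 - √3 / 2) + 4 * (√3 / 2 - 1 / 2)) := by linarith [sqrt3_lt]
    have h5 : 0 ≤ (r ^ 2 + D ^ 2) / 2 * (π / 3 - π / 6) := by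
      apply mul_nonneg (by positivity); linarith
    nlinarith [mul_nonneg hr0 this]

/-- The special direction. -/
noncomputable def psi1 : ℝ := Real.arcsin (37 / 206)

theorem psi1_nonneg : 0 ≤ psi1 := Real.arcsin_nonneg.mpr (by norm_num)

theorem psi1_le : psi1 ≤ π / 6 := by
  unfold psi1
  rw [Real.arcsin_le_iff_le_sin (by norm_num [Set.mem_Icc]) (by
    constructor <;> linarith [Real.pi_pos])]
  rw [Real.sin_pi_div_six]
  norm_num

theorem cos_psi1 : Real.cos psi1 = 117 * √3 / 206 := by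
  unfold psi1
  rw [Real.cos_arcsin]
  rw [show (1 - (37 / 206 : ℝ) ^ 2) = (117 * √3 / 206) ^ 2 by
    linear_combination (-(117 ^ 2) / 206 ^ 2) * sqrt3_sq]
  apply Real.sqrt_sq
  positivity

theorem sin_psi1 : Real.sin psi1 = 37 / 206 := by
  unfold psi1
  rw [Real.sin_arcsin (by norm_num) (by norm_num)]

theorem cos_psi1' : Real.cos (π / 3 - psi1) = 77 * √3 / 206 := by
  rw [Real.cos_sub, cos_psi1, sin_psi1, Real.cos_pi_div_three, Real.sin_pi_div_three]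
  ring

theorem sin_psi1' : Real.sin (π / 3 - psi1) = 157 / 206 := by
  rw [Real.sin_sub, cos_psi1, sin_psi1, Real.cos_pi_div_three, Real.sin_pi_div_three]
  linear_combination (117 / 412) * sqrt3_sq

theorem cmp1 {ψ : ℝ} (h0 : 0 ≤ ψ) (h1 : ψ ≤ psi1) :
    157 * Real.sin ψ ≤ 37 * Real.sin (π / 3 - ψ) := by
  have hp := Real.pi_pos
  have hq := psi1_le
  have e1 : Real.sin ψ ≤ 37 / 206 := by
    rw [← sin_psi1]
    apply Real.sin_le_sin_of_le_of_le_pi_div_two <;> linarith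
  have e2 : 157 / 206 ≤ Real.sin (π / 3 - ψ) := by
    rw [← sin_psi1']
    apply Real.sin_le_sin_of_le_of_le_pi_div_two <;> linarith
  linarith

theorem cmp2 {ψ : ℝ} (h0 : psi1 ≤ ψ) (h1 : ψ ≤ π / 3) :
    37 * Real.sin (π / 3 - ψ) ≤ 157 * Real.sin ψ := by
  have hp := Real.pi_pos
  have hq := psi1_le
  have hq0 := psi1_nonneg
  have e1 : 37 / 206 ≤ Real.sin ψ := by
    rw [← sin_psi1]
    apply Real.sin_le_sin_of_le_of_le_pi_div_two <;> linarith
  have e2 : Real.sin (π / 3 - ψ) ≤ 157 / 206 := by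
    rw [← sin_psi1']
    apply Real.sin_le_sin_of_le_of_le_pi_div_two <;> linarith
  linarith

/-- Upper bound for the special sector. -/
theorem sector_upper_spec {ι : Type*} [Finite ι] {A B : ι → ℝ} {r : ℝ} (hDr : 8 ≤ r)
    (hM : ∀ i, (A i ≤ 4 ∧ A i + B i ≤ 4 ∧ (A i ≤ 2 ∨ A i + B i ≤ 2)) ∨
      (A i = 36173 / 9700 ∧ A i + B i = 30547 / 9700) ∨
      (A i = 30547 / 9700 ∧ A i + B i = 36173 / 9700)) :
    arc (UD (fun i => √3 * A i) (fun i => A i + 2 * B i) r) 0 (π / 3)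
      ≤ ENNReal.ofReal ((r ^ 2 + 8 ^ 2) / 2 * (π / 3) + r * 7.2325) := by
  have hp := Real.pi_pos
  have hr0 : 0 ≤ r := by linarith
  have h3 := sqrt3_gt
  have h3' := sqrt3_lt
  have h33 := sqrt3_sq
  have hq := psi1_le
  have hq0 := psi1_nonneg
  have hm : ∀ i, √3 * A i * Real.cos 0 + (A i + 2 * B i) * Real.sin 0 = √3 * A i := by
    intro i; rw [Real.cos_zero, Real.sin_zero]; ring
  have hm' : ∀ i, -(√3 * A i) * Real.sin 0 + (A i + 2 * B i) * Real.cos 0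
      = 2 * (A i + B i) - A i := by
    intro i; rw [Real.cos_zero, Real.sin_zero]; ring
  have hb : ∀ a b : ℝ, 4 * (a ^ 2 + a * b + b ^ 2) ≤ 8 ^ 2 →
      (√3 * a) ^ 2 + (a + 2 * b) ^ 2 ≤ 8 ^ 2 := by
    intro a b h
    have : (√3 * a) ^ 2 = 3 * a ^ 2 := by linear_combination (a ^ 2) * h33
    rw [this]; linarith
  have hn : ∀ a b : ℝ, √3 * a * Real.cos 0 + (a + 2 * b) * Real.sin 0 = √3 * a := by
    intro a b; rw [Real.cos_zero, Real.sin_zero]; ring
  have hn' : ∀ a b : ℝ, -(√3 * a) * Real.sin 0 + (a + 2 * b) * Real.cos 0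
      = 2 * (a + b) - a := by
    intro a b; rw [Real.cos_zero, Real.sin_zero]; ring
  have h1 := arc_upper_m (ψ1 := 0) (ψ2 := psi1) (r := r) hq0 (by norm_num)
    (hb 4 (-2) (by norm_num)) hDr hm hm' (hn 4 (-2)) (hn' 4 (-2)) (by
    intro i ψ k0 k1
    have s1 := sin_nonneg' k0 (by linarith)
    have s2 := sin_le_sin'' k0 (by linarith)
    have s3 := cmp1 k0 k1
    rcases hM i with ⟨q1, q2, q3⟩ | ⟨q1, q2⟩ | ⟨q1, q2⟩
    · rcases q3 with q3 | q3 <;> nlinarith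
    · rw [q2, q1]; linarith
    · rw [q2, q1]; linarith)
  have h2 := arc_upper_m (ψ1 := psi1) (ψ2 := π / 6) (r := r) hq (by norm_num)
    (hb (36173 / 9700) (-5626 / 9700) (by norm_num)) hDr hm hm' (hn _ _) (hn' _ _) (by
    intro i ψ k0 k1
    have s1 := sin_nonneg' (hq0.trans k0) (by linarith)
    have s2 := sin_le_sin'' (hq0.trans k0) (by linarith)
    have s3 := cmp2 k0 (by linarith)
    have e : (36173 / 9700 + -5626 / 9700 : ℝ) = 30547 / 9700 := by norm_num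
    rw [e]
    rcases hM i with ⟨q1, q2, q3⟩ | ⟨q1, q2⟩ | ⟨q1, q2⟩
    · rcases q3 with q3 | q3 <;> nlinarith
    · rw [q2, q1]
    · rw [q2, q1]; linarith)
  have h4 := arc_upper_m (ψ1 := π / 3 - psi1) (ψ2 := π / 3) (r := r) (by linarith) (by norm_num)
    (hb 2 2 (by norm_num)) hDr hm hm' (hn 2 2) (hn' 2 2) (by
    intro i ψ k0 k1
    have s1 := sin_nonneg'' (show 0 ≤ ψ by linarith) k1
    have s2 := sin_le_sin' (show π / 6 ≤ ψ by linarith) k1
    have s3 := cmp1 (ψ := π / 3 - ψ) (by linarith) (by linarith)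
    rw [show π / 3 - (π / 3 - ψ) = ψ by ring] at s3
    rcases hM i with ⟨q1, q2, q3⟩ | ⟨q1, q2⟩ | ⟨q1, q2⟩
    · rcases q3 with q3 | q3 <;> nlinarith
    · rw [q2, q1]; linarith
    · rw [q2, q1]; linarith)
  have h3a := arc_upper_m (ψ1 := π / 6) (ψ2 := π / 3 - psi1) (r := r) (by linarith) (by norm_num)
    (hb (30547 / 9700) (5626 / 9700) (by norm_num)) hDr hm hm' (hn _ _) (hn' _ _) (by
    intro i ψ k0 k1
    have s1 := sin_nonneg'' (show 0 ≤ ψ by linarith) (by linarith)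
    have s2 := sin_le_sin' (show π / 6 ≤ ψ by linarith) (by linarith)
    have s3 := cmp2 (ψ := π / 3 - ψ) (by linarith) (by linarith)
    rw [show π / 3 - (π / 3 - ψ) = ψ by ring] at s3
    have e : (30547 / 9700 + 5626 / 9700 : ℝ) = 36173 / 9700 := by norm_num
    rw [e]
    rcases hM i with ⟨q1, q2, q3⟩ | ⟨q1, q2⟩ | ⟨q1, q2⟩
    · rcases q3 with q3 | q3 <;> nlinarith
    · rw [q2, q1]; linarith
    · rw [q2, q1])
  have c1 : Real.cos (π / 3 - (π / 3 - psi1)) = 117 * √3 / 206 := by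
    rw [show π / 3 - (π / 3 - psi1) = psi1 by ring, cos_psi1]
  rw [zero_add, zero_add] at h1 h2 h3a h4
  rw [arc_add _ (show (0:ℝ) ≤ π / 3 - psi1 by linarith) (show π / 3 - psi1 ≤ π / 3 by linarith),
    arc_add _ (show (0:ℝ) ≤ π / 6 by linarith) (show π / 6 ≤ π / 3 - psi1 by linarith),
    arc_add _ (show (0:ℝ) ≤ psi1 by linarith) (show psi1 ≤ π / 6 by linarith)]
  refine (add_le_add (add_le_add (add_le_add h1 h2) h3a) h4).trans ?_
  rw [c1, cos_psi1', cos_pi3_pi6, Real.cos_pi_div_six, cos_psi1]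
  simp only [Real.cos_zero, sub_zero, sub_self, Real.cos_pi_div_three]
  have n1 : 0 ≤ (r ^ 2 + 8 ^ 2) / 2 * psi1 := by positivity
  have n2 : 0 ≤ (r ^ 2 + 8 ^ 2) / 2 * (π / 6 - psi1) := mul_nonneg (by positivity) (by linarith)
  have n3 : 0 ≤ (r ^ 2 + 8 ^ 2) / 2 * (π / 3 - psi1 - π / 6) :=
    mul_nonneg (by positivity) (by linarith)
  have n4 : 0 ≤ (r ^ 2 + 8 ^ 2) / 2 * (π / 3 - (π / 3 - psi1)) :=
    mul_nonneg (by positivity) (by linarith)
  have t1 : 0 ≤ 2 * (4 * (77 * √3 / 206 - 1 / 2) + (4 + -2) * (1 - 117 * √3 / 206)) := by linarith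
  have t2 : 0 ≤ 2 * (36173 / 9700 * (√3 / 2 - 77 * √3 / 206)
    + (36173 / 9700 + -5626 / 9700) * (117 * √3 / 206 - √3 / 2)) := by linarith
  have t3 : 0 ≤ 2 * (30547 / 9700 * (117 * √3 / 206 - √3 / 2)
    + (30547 / 9700 + 5626 / 9700) * (√3 / 2 - 77 * √3 / 206)) := by linarith
  have t4 : 0 ≤ 2 * (2 * (1 - 117 * √3 / 206) + (2 + 2) * (77 * √3 / 206 - 1 / 2)) := by linarith
  have u1 := mul_nonneg hr0 t1
  have u2 := mul_nonneg hr0 t2
  have u3 := mul_nonneg hr0 t3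
  have u4 := mul_nonneg hr0 t4
  rw [← ENNReal.ofReal_add, ← ENNReal.ofReal_add, ← ENNReal.ofReal_add]
  · apply ENNReal.ofReal_le_ofReal
    have hfin : 4 * (4 * (77 * √3 / 206 - 1 / 2) + 2 * (1 - 117 * √3 / 206)
        + 36173 / 9700 * (√3 / 2 - 77 * √3 / 206)
        + 30547 / 9700 * (117 * √3 / 206 - √3 / 2)) ≤ 7.2325 := by
      linarith
    nlinarith [mul_le_mul_of_nonneg_left hfin hr0]
  all_goals linarith

/-- The counterexample, coordinates in the lattice frame. -/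
noncomputable def yA (i : Fin 54) : ℝ := ((pts.get (i.cast pts_length.symm)).1 : ℝ) / 9700
/-- The counterexample, coordinates in the lattice frame. -/
noncomputable def yB (i : Fin 54) : ℝ := ((pts.get (i.cast pts_length.symm)).2 : ℝ) / 9700

theorem y_upper {r : ℝ} (hr : 8 ≤ r) :
    volume (UD (fun i => √3 * yA i) (fun i => yA i + 2 * yB i) r)
      ≤ ENNReal.ofReal (π * (r ^ 2 + 64) + r * 44.5532) := by
  have hp := Real.pi_pos
  have hr0 : 0 ≤ r := by linarith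
  have h3 := sqrt3_gt
  have h3' := sqrt3_lt
  have h33 := sqrt3_sq
  have hmem : ∀ i : Fin 54, pts.get (i.cast pts_length.symm) ∈ pts := fun i => List.get_mem _ _
  have hb : ∀ a b : ℝ, 4 * (a ^ 2 + a * b + b ^ 2) ≤ 8 ^ 2 →
      (√3 * a) ^ 2 + (a + 2 * b) ^ 2 ≤ 8 ^ 2 := by
    intro a b h
    have : (√3 * a) ^ 2 = 3 * a ^ 2 := by linear_combination (a ^ 2) * h33
    rw [this]; linarith
  have tA0 : ∀ x y : ℝ, √3 * x * Real.cos (-π) + (x + 2 * y) * Real.sin (-π) = √3 * (-x) := by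
    intro x y; rw [cs0.1, cs0.2]; ring
  have tB0 : ∀ x y : ℝ, -(√3 * x) * Real.sin (-π) + (x + 2 * y) * Real.cos (-π) = 2 * (-x - y) - (-x) := by
    intro x y; rw [cs0.1, cs0.2]; linear_combination (0) * h33
  have g0 := sector_upper_reg (A := yA) (B := yB) (r := r) (D := 8) (θ := (-π)) (θ' := (-(2 * π / 3)))
    (a1 := -4) (b1 := 1) (a2 := -3) (b2 := -1) (by ring) (by norm_num) (hb _ _ (by norm_num))
    (hb _ _ (by norm_num)) hr (fun i => tA0 (yA i) (yB i)) (fun i => tB0 (yA i) (yB i))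
    (by rw [tA0]; ring) (by rw [tB0]; ring) (by rw [tA0]; ring) (by rw [tB0]; ring) (by
    intro i
    have h := pts_sec0 _ (hmem i)
    unfold yA yB
    obtain ⟨q, hq⟩ : ∃ q, q = pts.get (i.cast pts_length.symm) := ⟨_, rfl⟩
    rw [← hq] at h ⊢
    obtain ⟨h1, h2, h3⟩ := h
    have h1' : -(q.1 : ℝ) ≤ (38800 : ℝ) := by exact_mod_cast h1
    have h2' : -(q.1 : ℝ) - (q.2 : ℝ) ≤ (38800 : ℝ) := by exact_mod_cast h2
    refine ⟨by linarith, by linarith, ?_⟩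
    rcases h3 with h3 | h3
    · left
      have h3' : -(q.1 : ℝ) ≤ (29100 : ℝ) := by exact_mod_cast h3
      linarith
    · right
      have h3' : -(q.1 : ℝ) - (q.2 : ℝ) ≤ (29100 : ℝ) := by exact_mod_cast h3
      linarith)
  have tA1 : ∀ x y : ℝ, √3 * x * Real.cos (-(2 * π / 3)) + (x + 2 * y) * Real.sin (-(2 * π / 3)) = √3 * (-x - y) := by
    intro x y; rw [cs1.1, cs1.2]; ring
  have tB1 : ∀ x y : ℝ, -(√3 * x) * Real.sin (-(2 * π / 3)) + (x + 2 * y) * Real.cos (-(2 * π / 3)) = 2 * (-y) - (-x - y) := by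
    intro x y; rw [cs1.1, cs1.2]; linear_combination (x / 2) * h33
  have g1 := sector_upper_reg (A := yA) (B := yB) (r := r) (D := 8) (θ := (-(2 * π / 3))) (θ' := (-(π / 3)))
    (a1 := -1) (b1 := -3) (a2 := 1) (b2 := -4) (by ring) (by norm_num) (hb _ _ (by norm_num))
    (hb _ _ (by norm_num)) hr (fun i => tA1 (yA i) (yB i)) (fun i => tB1 (yA i) (yB i))
    (by rw [tA1]; ring) (by rw [tB1]; ring) (by rw [tA1]; ring) (by rw [tB1]; ring) (by
    intro i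
    have h := pts_sec1 _ (hmem i)
    unfold yA yB
    obtain ⟨q, hq⟩ : ∃ q, q = pts.get (i.cast pts_length.symm) := ⟨_, rfl⟩
    rw [← hq] at h ⊢
    obtain ⟨h1, h2, h3⟩ := h
    have h1' : -(q.1 : ℝ) - (q.2 : ℝ) ≤ (38800 : ℝ) := by exact_mod_cast h1
    have h2' : -(q.2 : ℝ) ≤ (38800 : ℝ) := by exact_mod_cast h2
    refine ⟨by linarith, by linarith, ?_⟩
    rcases h3 with h3 | h3
    · left
      have h3' : -(q.1 : ℝ) - (q.2 : ℝ) ≤ (29100 : ℝ) := by exact_mod_cast h3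
      linarith
    · right
      have h3' : -(q.2 : ℝ) ≤ (29100 : ℝ) := by exact_mod_cast h3
      linarith)
  have tA2 : ∀ x y : ℝ, √3 * x * Real.cos (-(π / 3)) + (x + 2 * y) * Real.sin (-(π / 3)) = √3 * (-y) := by
    intro x y; rw [cs2.1, cs2.2]; ring
  have tB2 : ∀ x y : ℝ, -(√3 * x) * Real.sin (-(π / 3)) + (x + 2 * y) * Real.cos (-(π / 3)) = 2 * (x) - (-y) := by
    intro x y; rw [cs2.1, cs2.2]; linear_combination (x / 2) * h33
  have g2 := sector_upper_reg (A := yA) (B := yB) (r := r) (D := 8) (θ := (-(π / 3))) (θ' := 0)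
    (a1 := 3) (b1 := -4) (a2 := 4) (b2 := -3) (by ring) (by norm_num) (hb _ _ (by norm_num))
    (hb _ _ (by norm_num)) hr (fun i => tA2 (yA i) (yB i)) (fun i => tB2 (yA i) (yB i))
    (by rw [tA2]; ring) (by rw [tB2]; ring) (by rw [tA2]; ring) (by rw [tB2]; ring) (by
    intro i
    have h := pts_sec2 _ (hmem i)
    unfold yA yB
    obtain ⟨q, hq⟩ : ∃ q, q = pts.get (i.cast pts_length.symm) := ⟨_, rfl⟩
    rw [← hq] at h ⊢
    obtain ⟨h1, h2, h3⟩ := h
    have h1' : -(q.2 : ℝ) ≤ (38800 : ℝ) := by exact_mod_cast h1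
    have h2' : (q.1 : ℝ) ≤ (38800 : ℝ) := by exact_mod_cast h2
    refine ⟨by linarith, by linarith, ?_⟩
    rcases h3 with h3 | h3
    · left
      have h3' : -(q.2 : ℝ) ≤ (29100 : ℝ) := by exact_mod_cast h3
      linarith
    · right
      have h3' : (q.1 : ℝ) ≤ (29100 : ℝ) := by exact_mod_cast h3
      linarith)
  have g3 := sector_upper_spec (A := yA) (B := yB) (r := r) hr (by
    intro i
    have h := pts_sec3 _ (hmem i)
    unfold yA yB
    obtain ⟨q, hq⟩ : ∃ q, q = pts.get (i.cast pts_length.symm) := ⟨_, rfl⟩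
    rw [← hq] at h ⊢
    rcases h with ⟨h1, h2, h3⟩ | ⟨h1, h2⟩ | ⟨h1, h2⟩
    · left
      have h1' : (q.1 : ℝ) ≤ 38800 := by exact_mod_cast h1
      have h2' : (q.1 : ℝ) + q.2 ≤ 38800 := by exact_mod_cast h2
      refine ⟨by linarith, by linarith, ?_⟩
      rcases h3 with h3 | h3
      · left
        have h3' : (q.1 : ℝ) ≤ 19400 := by exact_mod_cast h3
        linarith
      · right
        have h3' : (q.1 : ℝ) + q.2 ≤ 19400 := by exact_mod_cast h3
        linarith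
    · right; left
      have h1' : (q.1 : ℝ) = 36173 := by exact_mod_cast h1
      have h2' : (q.1 : ℝ) + q.2 = 30547 := by exact_mod_cast h2
      exact ⟨by linarith, by linarith⟩
    · right; right
      have h1' : (q.1 : ℝ) = 30547 := by exact_mod_cast h1
      have h2' : (q.1 : ℝ) + q.2 = 36173 := by exact_mod_cast h2
      exact ⟨by linarith, by linarith⟩)
  have tA4 : ∀ x y : ℝ, √3 * x * Real.cos (π / 3) + (x + 2 * y) * Real.sin (π / 3) = √3 * (x + y) := by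
    intro x y; rw [Real.cos_pi_div_three, Real.sin_pi_div_three]; ring
  have tB4 : ∀ x y : ℝ, -(√3 * x) * Real.sin (π / 3) + (x + 2 * y) * Real.cos (π / 3) = 2 * (y) - (x + y) := by
    intro x y; rw [Real.cos_pi_div_three, Real.sin_pi_div_three]; linear_combination (-x / 2) * h33
  have g4 := sector_upper_reg (A := yA) (B := yB) (r := r) (D := 8) (θ := (π / 3)) (θ' := (2 * π / 3))
    (a1 := 1) (b1 := 3) (a2 := -1) (b2 := 4) (by ring) (by norm_num) (hb _ _ (by norm_num))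
    (hb _ _ (by norm_num)) hr (fun i => tA4 (yA i) (yB i)) (fun i => tB4 (yA i) (yB i))
    (by rw [tA4]; ring) (by rw [tB4]; ring) (by rw [tA4]; ring) (by rw [tB4]; ring) (by
    intro i
    have h := pts_sec4 _ (hmem i)
    unfold yA yB
    obtain ⟨q, hq⟩ : ∃ q, q = pts.get (i.cast pts_length.symm) := ⟨_, rfl⟩
    rw [← hq] at h ⊢
    obtain ⟨h1, h2, h3⟩ := h
    have h1' : (q.1 : ℝ) + (q.2 : ℝ) ≤ (38800 : ℝ) := by exact_mod_cast h1
    have h2' : (q.2 : ℝ) ≤ (38800 : ℝ) := by exact_mod_cast h2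
    refine ⟨by linarith, by linarith, ?_⟩
    rcases h3 with h3 | h3
    · left
      have h3' : (q.1 : ℝ) + (q.2 : ℝ) ≤ (29100 : ℝ) := by exact_mod_cast h3
      linarith
    · right
      have h3' : (q.2 : ℝ) ≤ (29100 : ℝ) := by exact_mod_cast h3
      linarith)
  have tA5 : ∀ x y : ℝ, √3 * x * Real.cos (2 * π / 3) + (x + 2 * y) * Real.sin (2 * π / 3) = √3 * (y) := by
    intro x y; rw [cs5.1, cs5.2]; ring
  have tB5 : ∀ x y : ℝ, -(√3 * x) * Real.sin (2 * π / 3) + (x + 2 * y) * Real.cos (2 * π / 3) = 2 * (-x) - (y) := by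
    intro x y; rw [cs5.1, cs5.2]; linear_combination (-x / 2) * h33
  have g5 := sector_upper_reg (A := yA) (B := yB) (r := r) (D := 8) (θ := (2 * π / 3)) (θ' := π)
    (a1 := -3) (b1 := 4) (a2 := -4) (b2 := 3) (by ring) (by norm_num) (hb _ _ (by norm_num))
    (hb _ _ (by norm_num)) hr (fun i => tA5 (yA i) (yB i)) (fun i => tB5 (yA i) (yB i))
    (by rw [tA5]) (by rw [tB5]; ring) (by rw [tA5]) (by rw [tB5]; ring) (by
    intro i
    have h := pts_sec5 _ (hmem i)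
    unfold yA yB
    obtain ⟨q, hq⟩ : ∃ q, q = pts.get (i.cast pts_length.symm) := ⟨_, rfl⟩
    rw [← hq] at h ⊢
    obtain ⟨h1, h2, h3⟩ := h
    have h1' : (q.2 : ℝ) ≤ (38800 : ℝ) := by exact_mod_cast h1
    have h2' : -(q.1 : ℝ) ≤ (38800 : ℝ) := by exact_mod_cast h2
    refine ⟨by linarith, by linarith, ?_⟩
    rcases h3 with h3 | h3
    · left
      have h3' : (q.2 : ℝ) ≤ (29100 : ℝ) := by exact_mod_cast h3
      linarith
    · right
      have h3' : -(q.1 : ℝ) ≤ (29100 : ℝ) := by exact_mod_cast h3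
      linarith)
  have hU : MeasurableSet (UD (fun i => √3 * yA i) (fun i => yA i + 2 * yB i) r) :=
    (isClosed_UD _ _ _).measurableSet
  refine (six_sum_upper hU (by positivity) (by positivity) (by positivity) (by positivity)
    (by positivity) (by positivity) g0 g1 g2 g3 g4 g5).trans ?_
  apply ENNReal.ofReal_le_ofReal
  have : 5 * (2 * √3 + 4) + 7.2325 ≤ 44.5532 := by linarith
  nlinarith [mul_le_mul_of_nonneg_left this hr0]

theorem y_pack : ∀ i j : Fin 54, i ≠ j →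
    4 ≤ (√3 * yA i - √3 * yA j) ^ 2 + ((yA i + 2 * yB i) - (yA j + 2 * yB j)) ^ 2 := by
  have h33 := sqrt3_sq
  have key : ∀ i j : Fin 54, i < j →
      4 ≤ (√3 * yA i - √3 * yA j) ^ 2 + ((yA i + 2 * yB i) - (yA j + 2 * yB j)) ^ 2 := by
    intro i j hij
    have h := (List.pairwise_iff_get.mp pts_pairwise) (i.cast pts_length.symm)
      (j.cast pts_length.symm) (by simpa using hij)
    unfold yA yB
    obtain ⟨p, hp⟩ : ∃ q, q = pts.get (i.cast pts_length.symm) := ⟨_, rfl⟩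
    obtain ⟨q, hq⟩ : ∃ q, q = pts.get (j.cast pts_length.symm) := ⟨_, rfl⟩
    rw [← hp, ← hq] at h ⊢
    have h' : (94090000 : ℝ) ≤ ((p.1 : ℝ) - q.1) * (p.1 - q.1) + ((p.1 : ℝ) - q.1) * (p.2 - q.2)
      + ((p.2 : ℝ) - q.2) * (p.2 - q.2) := by exact_mod_cast h
    have e : (√3 * ((p.1 : ℝ) / 9700) - √3 * ((q.1 : ℝ) / 9700)) ^ 2
        + (((p.1 : ℝ) / 9700 + 2 * ((p.2 : ℝ) / 9700)) - ((q.1 : ℝ) / 9700 + 2 * ((q.2 : ℝ) / 9700))) ^ 2
        = 4 * (((p.1 : ℝ) - q.1) * (p.1 - q.1) + ((p.1 : ℝ) - q.1) * (p.2 - q.2)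
      + ((p.2 : ℝ) - q.2) * (p.2 - q.2)) / 94090000 := by
      linear_combination (((p.1 : ℝ) - q.1) ^ 2 / 94090000) * h33
    rw [e]
    rw [le_div_iff₀ (by norm_num)]
    linarith
  intro i j hij
  rcases lt_or_gt_of_ne hij with h | h
  · exact key i j h
  · have := key j i h
    nlinarith [this]

end Pool.Agent.H45.Disk
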