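import Mathlib
import Pool.Agent.H45.DiskPolar
import Pool.Agent.H45.DiskFrame
import Pool.Agent.H45.DiskLat
import Pool.Agent.H45.DiskNL

set_option autoImplicit false
set_option maxHeartbeats 1000000

open MeasureTheory Set Filter Topology
open scoped ENNReal Real RealInnerProductSpace

namespace Pool.Agent.H45.Disk

abbrev E2 := EuclideanSpace ℝ (Fin 2)

/-- area of the union -/
noncomputable def area {n : ℕ} (r : ℝ) (c : Fin n → E2) : ℝ≥0∞ := volume (⋃ i, Metric.closedBall (c i) r)

theorem area_lsc {n : ℕ} (r : ℝ) : LowerSemicontinuous (area r : (Fin n → E2) → ℝ≥0∞) := by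
  intro c y hy
  have h1 : area r c ≤ volume (⋃ i, Metric.ball (c i) r) := by
    unfold area
    have hsub : (⋃ i, Metric.closedBall (c i) r) ⊆
        (⋃ i, Metric.ball (c i) r) ∪ ⋃ i, {x | dist x (c i) = r} ∩ Metric.closedBall (c i) r := by
      intro x hx
      rw [mem_iUnion] at hx
      obtain ⟨i, hi⟩ := hx
      rcases lt_or_eq_of_le (Metric.mem_closedBall.mp hi) with h | h
      · left; exact mem_iUnion.mpr ⟨i, h⟩
      · right; exact mem_iUnion.mpr ⟨i, h, hi⟩
    refine (measure_mono hsub).trans ((measure_union_le _ _).trans ?_)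
    have hz : volume (⋃ i, {x | dist x (c i) = r} ∩ Metric.closedBall (c i) r) = 0 := by
      rw [measure_iUnion_null_iff]
      intro i
      apply measure_mono_null (inter_subset_left)
      have : {x | dist x (c i) = r} = Metric.sphere (c i) r := rfl
      rw [this]
      exact Measure.addHaar_sphere _ _ _
    rw [hz, add_zero]
  have hy' : y < volume (⋃ i, Metric.ball (c i) r) := lt_of_lt_of_le hy h1
  have h2 : (⋃ m : ℕ, ⋃ i, Metric.closedBall (c i) (r - 1 / ((m : ℝ) + 1)))
      = ⋃ i, Metric.ball (c i) r := by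
    ext x
    simp only [mem_iUnion, Metric.mem_closedBall, Metric.mem_ball]
    constructor
    · rintro ⟨m, i, h⟩
      refine ⟨i, lt_of_le_of_lt h ?_⟩
      have : (0:ℝ) < 1 / ((m : ℝ) + 1) := by positivity
      linarith
    · rintro ⟨i, h⟩
      obtain ⟨m, hm⟩ := exists_nat_one_div_lt (sub_pos.mpr h)
      exact ⟨m, i, by linarith⟩
  have hmono : Monotone (fun m : ℕ => ⋃ i, Metric.closedBall (c i) (r - 1 / ((m : ℝ) + 1))) := by
    intro m m' hmm'
    apply iUnion_mono
    intro i
    apply Metric.closedBall_subset_closedBall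
    have : 1 / ((m' : ℝ) + 1) ≤ 1 / ((m : ℝ) + 1) := by
      apply one_div_le_one_div_of_le (by positivity)
      have : (m : ℝ) ≤ m' := by exact_mod_cast hmm'
      linarith
    linarith
  have ht := tendsto_measure_iUnion_atTop (μ := volume) hmono
  rw [h2] at ht
  obtain ⟨m, hm⟩ := (ht.eventually (lt_mem_nhds hy')).exists
  have hpos : (0:ℝ) < 1 / ((m : ℝ) + 1) := by positivity
  filter_upwards [Metric.ball_mem_nhds c hpos] with c' hc'
  refine lt_of_lt_of_le hm ?_
  apply measure_mono
  apply iUnion_mono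
  intro i x hx
  rw [Metric.mem_closedBall] at hx ⊢
  have h3 : dist (c' i) (c i) ≤ dist c' c := dist_le_pi_dist _ _ _
  rw [Metric.mem_ball] at hc'
  have h4 := dist_triangle x (c i) (c' i)
  rw [dist_comm (c i) (c' i)] at h4
  linarith

theorem exists_basis (e : E2) (he : ‖e‖ = 1) :
    ∃ b : OrthonormalBasis (Fin 2) ℝ E2, b 0 = e := by
  have hv : Orthonormal ℝ (({0} : Set (Fin 2)).domRestrict (fun _ : Fin 2 => e)) := by
    constructor
    · intro i; exact he
    · intro i j hij
      exact absurd (Subsingleton.elim i j) hij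
  obtain ⟨b, hb⟩ := hv.exists_orthonormalBasis_extension_of_card_eq (by simp)
  exact ⟨b, hb 0 (by simp)⟩

theorem far_lower {n : ℕ} (c : Fin n → E2) (i j : Fin n) (h : 30 ≤ dist (c i) (c j)) {r κ : ℝ}
    (hκ : 60 ≤ κ) (hr : κ ^ 2 + 30 ^ 2 ≤ r ^ 2) (hr0 : 0 ≤ r) :
    ENNReal.ofReal (π * κ ^ 2 + κ * 60) ≤ area r c := by
  have hp := Real.pi_pos
  obtain ⟨p, hpd⟩ : ∃ p, p = c i := ⟨_, rfl⟩
  obtain ⟨q, hqd⟩ : ∃ q, q = c j := ⟨_, rfl⟩
  rw [← hpd, ← hqd] at h
  have hd : 0 < dist p q := by linarith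
  set d := dist p q with hdd
  have hnorm : ‖q - p‖ = d := by rw [hdd, dist_comm, dist_eq_norm]
  -- unit vector
  obtain ⟨e, hedef⟩ : ∃ e : E2, e = (1 / d) • (q - p) := ⟨_, rfl⟩
  have he : ‖e‖ = 1 := by
    rw [hedef, norm_smul, hnorm, Real.norm_of_nonneg (by positivity)]
    field_simp
  obtain ⟨b, hb⟩ := exists_basis e he
  obtain ⟨q1, hq1⟩ : ∃ q1 : E2, q1 = p + (30 : ℝ) • e := ⟨_, rfl⟩
  have hsub : Metric.closedBall p r ∩ Metric.closedBall q r ⊆ Metric.closedBall q1 r := by
    intro x hx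
    have h1 : p ∈ Metric.closedBall x r := by
      rw [Metric.mem_closedBall, dist_comm]; exact hx.1
    have h2 : q ∈ Metric.closedBall x r := by
      rw [Metric.mem_closedBall, dist_comm]; exact hx.2
    have h3 : q1 ∈ Metric.closedBall x r := by
      have hc := (convex_closedBall x r) h1 h2 (show 0 ≤ 1 - 30 / d by
        rw [sub_nonneg, div_le_one hd]; exact h) (show 0 ≤ 30 / d by positivity) (by ring)
      convert hc using 1
      rw [hq1, hedef]
      module
    rw [Metric.mem_closedBall, dist_comm]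
    exact h3
  have hvol : volume (Metric.closedBall q r) = volume (Metric.closedBall q1 r) := by
    rw [Measure.addHaar_closedBall_center volume q r, Measure.addHaar_closedBall_center volume q1 r]
  have hcompare : volume (Metric.closedBall p r ∪ Metric.closedBall q1 r)
      ≤ volume (Metric.closedBall p r ∪ Metric.closedBall q r) := by
    have m1 := measure_union_add_inter (μ := volume) (Metric.closedBall p r)
      (measurableSet_closedBall (x := q) (ε := r))
    have m2 := measure_union_add_inter (μ := volume) (Metric.closedBall p r)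
      (measurableSet_closedBall (x := q1) (ε := r))
    have m3 : volume (Metric.closedBall p r ∩ Metric.closedBall q r)
        ≤ volume (Metric.closedBall p r ∩ Metric.closedBall q1 r) :=
      measure_mono (subset_inter inter_subset_left hsub)
    have hfin : volume (Metric.closedBall p r ∩ Metric.closedBall q r) ≠ ⊤ :=
      ((measure_mono inter_subset_left).trans_lt measure_closedBall_lt_top).ne
    rw [hvol, ← m2] at m1
    have : volume (Metric.closedBall p r ∪ Metric.closedBall q1 r)
        + volume (Metric.closedBall p r ∩ Metric.closedBall q r)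
        ≤ volume (Metric.closedBall p r ∪ Metric.closedBall q r)
        + volume (Metric.closedBall p r ∩ Metric.closedBall q r) := by
      rw [m1]; gcongr
    exact (ENNReal.add_le_add_iff_right hfin).mp this
  have hle : volume (Metric.closedBall p r ∪ Metric.closedBall q r) ≤ area r c := by
    unfold area
    apply measure_mono
    apply union_subset
    · rw [hpd]; exact subset_iUnion (fun i => Metric.closedBall (c i) r) i
    · rw [hqd]; exact subset_iUnion (fun i => Metric.closedBall (c i) r) j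
  refine le_trans ?_ (hcompare.trans hle)
  have hU2 : (Metric.closedBall p r ∪ Metric.closedBall q1 r)
      = ⋃ k : Fin 2, Metric.closedBall ((![p, q1] : Fin 2 → E2) k) r := by
    ext x
    simp [Fin.exists_fin_two]
  rw [hU2, volume_union_eq b p _ hr0]
  set U := UD (fun k : Fin 2 => ⟪b 0, (![p, q1] : Fin 2 → E2) k - p⟫)
    (fun k : Fin 2 => ⟪b 1, (![p, q1] : Fin 2 → E2) k - p⟫) r with hU
  have hUm : MeasurableSet U := (isClosed_UD _ _ _).measurableSet
  have in0 : ∀ z : ℝ × ℝ, (z.1 - 0) ^ 2 + (z.2 - 0) ^ 2 ≤ r ^ 2 → z ∈ U := by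
    intro z hz
    refine ⟨0, ?_⟩
    simpa using hz
  have hb10 : ⟪b 1, e⟫ = 0 := by
    rw [← hb]; exact b.orthonormal.2 (by decide)
  have in1 : ∀ z : ℝ × ℝ, (z.1 - 30) ^ 2 + (z.2 - 0) ^ 2 ≤ r ^ 2 → z ∈ U := by
    intro z hz
    refine ⟨1, ?_⟩
    have e1 : (![p, q1] : Fin 2 → E2) 1 - p = (30 : ℝ) • e := by
      simp [hq1]
    simp only [e1, inner_smul_right, hb10, hb, real_inner_self_eq_norm_sq, he]
    simpa using hz
  rw [← arc_full hUm, arc_add U (show -π ≤ π / 2 by linarith) (show π / 2 ≤ π by linarith),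
    arc_add U (show -π ≤ -(π / 2) by linarith) (show -(π / 2) ≤ π / 2 by linarith)]
  have a1 := arc_lower (U := U) (x := 0) (y := 0) (D := 30) (κ := κ) (r := r)
    (show -π ≤ -(π / 2) by linarith)
    (by norm_num) (by norm_num) (by linarith) hr in0
  have a2 := arc_lower (U := U) (x := 30) (y := 0) (D := 30) (κ := κ) (r := r)
    (show -(π / 2) ≤ π / 2 by linarith)
    (by norm_num) (by norm_num) (by linarith) hr in1
  have a3 := arc_lower (U := U) (x := 0) (y := 0) (D := 30) (κ := κ) (r := r)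
    (show π / 2 ≤ π by linarith)
    (by norm_num) (by norm_num) (by linarith) hr in0
  refine le_trans ?_ (add_le_add (add_le_add a1 a2) a3)
  refine le_trans ?_ (add_le_add (ENNReal.ofReal_add_le) le_rfl)
  refine le_trans ?_ ENNReal.ofReal_add_le
  apply ENNReal.ofReal_le_ofReal
  rw [Real.sin_neg, Real.sin_pi_div_two]
  apply le_of_eq
  ring

/-- packings -/
def Packs {n : ℕ} (c : Fin n → E2) : Prop := Pairwise fun j k => (2 : ℝ) ≤ dist (c j) (c k)

theorem area_translate {n : ℕ} (r : ℝ) (c : Fin n → E2) (v : E2) :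
    area r (fun i => c i - v) = area r c := by
  unfold area
  have h1 : MeasurePreserving (fun x : E2 => x - v) volume volume :=
    measurePreserving_sub_right volume v
  have h2 : (fun x : E2 => x - v) ⁻¹' (⋃ i, Metric.closedBall (c i - v) r)
      = ⋃ i, Metric.closedBall (c i) r := by
    ext x
    simp [dist_eq_norm]
  rw [← h2, h1.measure_preimage]
  exact (isClosed_iUnion_of_finite (fun i => Metric.isClosed_closedBall)).measurableSet.nullMeasurableSet

/-- the counterexample as points of the plane -/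
noncomputable def Y0 (i : Fin 54) : E2 := !₂[√3 * yA i, yA i + 2 * yB i]

theorem Y0_packs : Packs Y0 := by
  intro i j hij
  have h := y_pack i j hij
  have : dist (Y0 i) (Y0 j) = √((√3 * yA i - √3 * yA j) ^ 2 +
      ((yA i + 2 * yB i) - (yA j + 2 * yB j)) ^ 2) := by
    rw [EuclideanSpace.dist_eq]
    simp [Y0, Fin.sum_univ_two, Real.dist_eq, sq_abs]
  rw [this]
  apply Real.le_sqrt_of_sq_le
  linarith

theorem Y0_area {r : ℝ} (hr : 8 ≤ r) : area r Y0 ≤ ENNReal.ofReal (π * (r ^ 2 + 64) + r * 44.5532) := by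
  unfold area
  rw [volume_union_eq (EuclideanSpace.basisFun (Fin 2) ℝ) 0 Y0 (by linarith)]
  have h := y_upper hr
  convert h using 3
  · ext i
    simp [Y0, EuclideanSpace.basisFun_apply, EuclideanSpace.inner_single_left]
  · ext i
    simp [Y0, EuclideanSpace.basisFun_apply, EuclideanSpace.inner_single_left]

theorem exists_minimizer {r κ : ℝ} (hκ : 60 ≤ κ) (hr : κ ^ 2 + 30 ^ 2 ≤ r ^ 2) (hr0 : 8 ≤ r)
    (hbig : area r Y0 < ENNReal.ofReal (π * κ ^ 2 + κ * 60)) :
    ∃ c : Fin 54 → E2, Packs c ∧ ∀ x : Fin 54 → E2, Packs x → area r c ≤ area r x := by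
  obtain ⟨K, hK⟩ : ∃ K : Set (Fin 54 → E2), K = {x | (∀ i, x i ∈ Metric.closedBall (0 : E2) 30) ∧ Packs x} :=
    ⟨_, rfl⟩
  have hred : ∀ x : Fin 54 → E2, Packs x → (ENNReal.ofReal (π * κ ^ 2 + κ * 60) ≤ area r x) ∨
      ∃ x' ∈ K, area r x' = area r x := by
    intro x hx
    by_cases h : ∃ i j, 30 ≤ dist (x i) (x j)
    · obtain ⟨i, j, hij⟩ := h
      exact Or.inl (far_lower x i j hij hκ hr (by linarith))
    · push Not at h
      right
      refine ⟨fun i => x i - x 0, ?_, area_translate r x (x 0)⟩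
      rw [hK]
      refine ⟨?_, ?_⟩
      · intro i
        rw [Metric.mem_closedBall, dist_zero_right, ← dist_eq_norm]
        exact (h i 0).le
      · intro j k hjk
        have := hx hjk
        simpa [dist_eq_norm] using this
  have hKc : IsCompact K := by
    have h1 : IsCompact (Set.univ.pi fun _ : Fin 54 => Metric.closedBall (0 : E2) 30) :=
      isCompact_univ_pi (fun _ => isCompact_closedBall _ _)
    have h2 : IsClosed {x : Fin 54 → E2 | Packs x} := by
      have : {x : Fin 54 → E2 | Packs x} = ⋂ j, ⋂ k, ⋂ (_ : j ≠ k), {x | (2:ℝ) ≤ dist (x j) (x k)} := by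
        ext x
        simp only [Packs, Pairwise, mem_ofPred_eq, mem_iInter]
      rw [this]
      refine isClosed_iInter fun j => isClosed_iInter fun k => isClosed_iInter fun _ => ?_
      exact isClosed_le continuous_const ((continuous_apply j).dist (continuous_apply k))
    have h3 : K = (Set.univ.pi fun _ : Fin 54 => Metric.closedBall (0 : E2) 30) ∩ {x | Packs x} := by
      rw [hK]; ext x; simp [Set.mem_pi]
    rw [h3]
    exact h1.inter_right h2
  have hKne : K.Nonempty := by
    rcases hred Y0 Y0_packs with h | ⟨x', hx', -⟩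
    · exact absurd hbig (not_lt.mpr h)
    · exact ⟨x', hx'⟩
  obtain ⟨c, hcK, hcmin⟩ := LowerSemicontinuousOn.exists_isMinOn hKne hKc
    ((area_lsc (n := 54) r).lowerSemicontinuousOn K)
  rw [isMinOn_iff] at hcmin
  have hcY : area r c ≤ area r Y0 := by
    rcases hred Y0 Y0_packs with h | ⟨x', hx', he⟩
    · exact absurd hbig (not_lt.mpr h)
    · rw [← he]; exact hcmin x' hx'
  refine ⟨c, ?_, ?_⟩
  · rw [hK] at hcK; exact hcK.2
  · intro x hx
    rcases hred x hx with h | ⟨x', hx', he⟩
    · exact hcY.trans (hbig.le.trans h)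
    · rw [← he]; exact hcmin x' hx'

/-- Lattice configurations have large area. -/
theorem lattice_area {r κ : ℝ} (hκ : 60 ≤ κ) (hr : κ ^ 2 + 30 ^ 2 ≤ r ^ 2) (hr0 : 8 ≤ r)
    (c : Fin 54 → E2) (hc : Packs c) (p u v : E2) (hu : ‖u‖ = 1) (hv : ‖v‖ = 1) (huv : ‖u - v‖ = 1)
    (hlat : ∀ i, ∃ a b : ℤ, c i = p + ((2 : ℝ) * (a : ℝ)) • u + ((2 : ℝ) * (b : ℝ)) • v) :
    ENNReal.ofReal (π * κ ^ 2 + κ * 44.6) ≤ area r c := by
  by_cases h : ∃ i j, 30 ≤ dist (c i) (c j)
  · obtain ⟨i, j, hij⟩ := h
    refine le_trans (ENNReal.ofReal_le_ofReal ?_) (far_lower c i j hij hκ hr (by linarith))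
    nlinarith
  push Not at h
  choose a b hab using hlat
  have huu : ⟪u, u⟫ = 1 := by rw [real_inner_self_eq_norm_sq, hu]; norm_num
  have hvv : ⟪v, v⟫ = 1 := by rw [real_inner_self_eq_norm_sq, hv]; norm_num
  have huv' : ⟪u, v⟫ = 1 / 2 := by
    have h1 := norm_sub_sq_real u v
    rw [hu, hv, huv] at h1
    linarith
  have hvu' : ⟪v, u⟫ = 1 / 2 := by rw [real_inner_comm]; exact huv'
  have h33 := sqrt3_sq
  have hs3 : 0 < √3 := by linarith [sqrt3_gt]
  -- orthonormal basis
  obtain ⟨w, hw⟩ : ∃ w : Fin 2 → E2, w = ![(1 / √3) • ((2 : ℝ) • u - v), v] := ⟨_, rfl⟩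
  have hwo : Orthonormal ℝ w := by
    rw [orthonormal_iff_ite]
    have e00 : ⟪(1 / √3) • ((2 : ℝ) • u - v), (1 / √3) • ((2 : ℝ) • u - v)⟫ = 1 := by
      rw [real_inner_smul_left, real_inner_smul_right, inner_sub_left, inner_sub_right,
        inner_sub_right, real_inner_smul_left, real_inner_smul_right, real_inner_smul_left,
        real_inner_smul_right, huu, hvv, huv', hvu']
      field_simp
      nlinarith
    have e01 : ⟪(1 / √3) • ((2 : ℝ) • u - v), v⟫ = 0 := by
      rw [real_inner_smul_left, inner_sub_left, real_inner_smul_left, hvv, huv']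
      ring
    have e10 : ⟪v, (1 / √3) • ((2 : ℝ) • u - v)⟫ = 0 := by
      rw [real_inner_comm]; exact e01
    refine Fin.forall_fin_two.mpr ⟨Fin.forall_fin_two.mpr ⟨?_, ?_⟩, Fin.forall_fin_two.mpr ⟨?_, ?_⟩⟩
    · rw [if_pos rfl, hw]; exact e00
    · rw [if_neg (by decide), hw]; exact e01
    · rw [if_neg (by decide), hw]; exact e10
    · rw [if_pos rfl, hw]; exact hvv
  obtain ⟨B, hB⟩ : ∃ B : OrthonormalBasis (Fin 2) ℝ E2, ⇑B = w := by
    have hcard : Fintype.card (Fin 2) = Module.finrank ℝ E2 := by simp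
    refine ⟨OrthonormalBasis.mk hwo ?_, OrthonormalBasis.coe_mk _ _⟩
    rw [hwo.linearIndependent.span_eq_top_of_card_eq_finrank hcard]
  have hB0 : B 0 = (1 / √3) • ((2 : ℝ) • u - v) := by rw [hB, hw]; rfl
  have hB1 : B 1 = v := by rw [hB, hw]; rfl
  have hdiff : ∀ i, c i - c 0 = ((2 : ℝ) * ((a i - a 0 : ℤ) : ℝ)) • u
      + ((2 : ℝ) * ((b i - b 0 : ℤ) : ℝ)) • v := by
    intro i
    rw [hab i, hab 0]
    push_cast
    module
  have hX : ∀ i, ⟪B 0, c i - c 0⟫ = √3 * ((a i - a 0 : ℤ) : ℝ) := by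
    intro i
    rw [hdiff i, hB0, inner_add_right, real_inner_smul_left, real_inner_smul_left,
      inner_smul_right, inner_smul_right, inner_sub_left, inner_sub_left,
      real_inner_smul_left, real_inner_smul_left, huu, huv', hvu', hvv]
    have hq : (1 / √3) * 3 = √3 := by
      rw [div_mul_eq_mul_div, one_mul, div_eq_iff hs3.ne']; linarith [h33]
    linear_combination ((a i - a 0 : ℤ) : ℝ) * hq
  have hY : ∀ i, ⟪B 1, c i - c 0⟫ = ((a i - a 0 : ℤ) : ℝ) + 2 * ((b i - b 0 : ℤ) : ℝ) := by
    intro i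
    rw [hdiff i, hB1, inner_add_right, inner_smul_right, inner_smul_right, hvu', hvv]
    ring
  unfold area
  rw [volume_union_eq B (c 0) c (by linarith)]
  simp only [hX, hY]
  refine lat_lower (fun i => a i - a 0) (fun i => b i - b 0) ?_ (D := 30) (by norm_num) ?_
    (by linarith) hr
  · intro i j hij
    simp only [Prod.mk.injEq] at hij
    by_contra hne
    have h2 : (2 : ℝ) ≤ dist (c i) (c j) := hc hne
    have : c i = c j := by
      have h3 := hdiff i
      have h4 := hdiff j
      rw [hij.1, hij.2, ← h4] at h3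
      exact sub_left_injective h3
    rw [this, dist_self] at h2
    linarith
  · intro i
    rw [← hX i, ← hY i]
    have h5 := B.sum_sq_inner_right (c i - c 0)
    rw [Fin.sum_univ_two] at h5
    rw [h5]
    have h6 := (h i 0).le
    rw [dist_eq_norm] at h6
    gcongr

end Pool.Agent.H45.Disk
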